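import Pool.Agent.P8H96.ER.Urn

/-!
If all steps are forward from some time on, then the walk is trapped in a directed circuit.
-/

set_option autoImplicit false
set_option linter.unusedSectionVars false

namespace Pool.Agent.P8H96.ER

open MeasureTheory Finset Filter Topology
open scoped ENNReal
open Pool.Agent.Results.MP_856411_pr.NotTrapped

section

variable {V : Type*} {G : SimpleGraph V}

/-- The range is finite if all steps are forward from some time on. -/
theorem finite_range {x : ℕ → V} {m : ℕ} (hx : x ∈ Ev (fun k w y => Fw k w y) m) :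
    (Set.range x).Finite := by
  have h1 : ∀ k, ∃ j ≤ m, x j = x k := by
    intro k
    induction k using Nat.strong_induction_on with
    | _ k ih =>
      rcases Nat.lt_or_ge m k with h | h
      · obtain ⟨l, rfl⟩ : ∃ l, k = l + 1 := ⟨k - 1, by omega⟩
        have h2 : 1 ≤ crossing x l (x l) (x (l + 1)) := hx l (by omega)
        obtain ⟨j, hj1, hj2⟩ := visited_of_crossing h2
        obtain ⟨i, hi1, hi2⟩ := ih j (by omega)
        exact ⟨i, hi1, hi2.trans hj2⟩
      · exact ⟨k, h, rfl⟩
  refine Set.Finite.subset (Set.Finite.image x (Set.finite_Iic m)) ?_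
  rintro _ ⟨k, rfl⟩
  obtain ⟨j, hj1, hj2⟩ := h1 k
  exact ⟨j, hj1, hj2⟩

/-- Unique successors from the fact that no two edges with the same origin are crossed infinitely
often. -/
theorem unique_succ {x : ℕ → V} (hfin : (Set.range x).Finite)
    (h : ∀ a b b', b ≠ b' → ¬ ((∃ᶠ k in atTop, x k = a ∧ x (k + 1) = b) ∧
        ∃ᶠ k in atTop, x k = a ∧ x (k + 1) = b')) :
    ∃ N, ∀ k k', N ≤ k → k ≤ k' → x k = x k' → x (k + 1) = x (k' + 1) := by
  classical
  have h1 : ∀ᶠ k in atTop, ∀ p ∈ (Set.range x ×ˢ Set.range x),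
      (¬ ∃ᶠ j in atTop, x j = p.1 ∧ x (j + 1) = p.2) → ¬ (x k = p.1 ∧ x (k + 1) = p.2) := by
    rw [Filter.eventually_all_finite (hfin.prod hfin)]
    intro p _
    by_cases hp : ∃ᶠ j in atTop, x j = p.1 ∧ x (j + 1) = p.2
    · exact Filter.Eventually.of_forall fun k hk => absurd hp hk
    · have := hp
      rw [not_frequently] at this
      exact this.mono fun k hk _ => hk
  obtain ⟨N, hN⟩ := eventually_atTop.1 h1
  have h2 : ∀ k, N ≤ k → ∃ᶠ j in atTop, x j = x k ∧ x (j + 1) = x (k + 1) := by
    intro k hk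
    by_contra hcon
    exact hN k hk (x k, x (k + 1)) ⟨⟨k, rfl⟩, ⟨k + 1, rfl⟩⟩ hcon ⟨rfl, rfl⟩
  refine ⟨N, fun k k' hk hkk' hx => ?_⟩
  by_contra hne
  refine h (x k) _ _ hne ⟨h2 k hk, ?_⟩
  have := h2 k' (hk.trans hkk')
  rwa [← hx] at this

/-- Unique successors if all degrees are two. -/
theorem unique_succ_two [G.LocallyFinite] {x : ℕ → V} (hP : ∀ n, IsP G x n) {N : ℕ}
    (hx : x ∈ Ev (fun k w y => Fw k w y) N) (hdeg : ∀ n, G.degree (x n) = 2) :
    ∀ k k', N ≤ k → k ≤ k' → x k = x k' → x (k + 1) = x (k' + 1) := by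
  classical
  intro k k' hk hkk' hxk
  by_contra hne
  have c1 : 1 ≤ crossing x k (x k) (x (k + 1)) := hx k hk
  have c2 : 1 ≤ crossing x k' (x k') (x (k' + 1)) := hx k' (by omega)
  have c3 := crossing_mono_Ev hx hk c1 hkk'
  have a1 : G.Adj (x k) (x (k + 1)) := hP (k + 1) k (by omega)
  have a2 : G.Adj (x k') (x (k' + 1)) := hP (k' + 1) k' (by omega)
  rw [← hxk] at c2 a2
  have hcons := conservation G (hP k') (x k)
  have hsub : ({x (k + 1), x (k' + 1)} : Finset V) ⊆ G.neighborFinset (x k) := by
    intro y hy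
    rw [mem_insert, mem_singleton] at hy
    rw [SimpleGraph.mem_neighborFinset]
    rcases hy with rfl | rfl
    · exact a1
    · exact a2
  have heq : G.neighborFinset (x k) = {x (k + 1), x (k' + 1)} := by
    refine (eq_of_subset_of_card_le hsub ?_).symm
    rw [SimpleGraph.card_neighborFinset_eq_degree, hdeg, card_pair hne]
  rw [heq, sum_pair hne, if_pos hxk.symm] at hcons
  have : (if x 0 = x k then (1 : ℤ) else 0) ≤ 1 := by split_ifs <;> omega
  omega

/-- **The walk is trapped.** -/
theorem trapped_of_unique {x : ℕ → V} (hP : ∀ n, IsP G x n) {M : ℕ}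
    (hx : x ∈ Ev (fun k w y => Fw k w y) M)
    (huniq : ∃ N, ∀ k k', N ≤ k → k ≤ k' → x k = x k' → x (k + 1) = x (k' + 1)) :
    Trapped G x := by
  classical
  have hfin := finite_range hx
  obtain ⟨N, hN⟩ := huniq
  obtain ⟨a, -, ha⟩ : ∃ a ∈ Set.range x, ∃ᶠ n in atTop, x n = a := by
    by_contra hcon
    push Not at hcon
    have h2 : ∀ᶠ n in atTop, ∀ a ∈ Set.range x, x n ≠ a := by
      rw [Filter.eventually_all_finite hfin]
      intro a ha
      exact hcon a ha
    obtain ⟨n, hn⟩ := h2.exists
    exact hn (x n) ⟨n, rfl⟩ rfl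
  obtain ⟨K, hK1, hK2⟩ := frequently_atTop.1 ha (max N M)
  have hex : ∃ m, 1 ≤ m ∧ x (K + m) = x K := by
    obtain ⟨k, hk1, hk2⟩ := frequently_atTop.1 ha (K + 1)
    exact ⟨k - K, by omega, by rw [Nat.add_sub_cancel' (by omega), hk2, hK2]⟩
  have hNK : N ≤ K := (le_max_left _ _).trans hK1
  have hMK : M ≤ K := (le_max_right _ _).trans hK1
  obtain ⟨hm1, hm2⟩ := Nat.find_spec hex
  have hmin : ∀ m, m < Nat.find hex → 1 ≤ m → x (K + m) ≠ x K := by
    intro m hm h1 h2
    exact Nat.find_min hex hm ⟨h1, h2⟩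
  set m := Nat.find hex with hm
  have hper : ∀ j, x (K + j + m) = x (K + j) := by
    intro j
    induction j with
    | zero => exact hm2
    | succ j ih =>
      have := hN (K + j) (K + j + m) (by omega) (by omega) ih.symm
      rw [← add_assoc, this]
      congr 1
      omega
  have hper' : ∀ i j, x (K + i + m * j) = x (K + i) := by
    intro i j
    induction j with
    | zero => rfl
    | succ j ih =>
      have := hper (i + m * j)
      rw [← ih, mul_add, mul_one]
      rw [← add_assoc] at this
      rw [← add_assoc, this]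
  have hmod : ∀ j, x (K + j) = x (K + j % m) := by
    intro j
    conv_lhs => rw [← Nat.mod_add_div j m, ← add_assoc]
    exact hper' _ _
  -- no period one or two
  have hm3 : 3 ≤ m := by
    by_contra hcon
    have : m = 1 ∨ m = 2 := by omega
    rcases this with h1 | h2
    · rw [h1] at hm2
      have := hP (K + 1) K (by omega)
      rw [hm2] at this
      exact this.ne rfl
    · rw [h2] at hm2
      have c1 : 1 ≤ crossing x K (x K) (x (K + 1)) := hx K hMK
      have c2 : 1 ≤ crossing x (K + 1) (x (K + 1)) (x (K + 1 + 1)) := hx (K + 1) (by omega)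
      have e : x (K + 1 + 1) = x K := hm2
      rw [e, crossing_swap] at c2
      have c3 := crossing_mono_Ev hx hMK c1 (Nat.le_succ K)
      have c3' : crossing x K (x K) (x (K + 1)) ≤ crossing x (K + 1) (x K) (x (K + 1)) := c3
      omega
  have : NeZero m := ⟨by omega⟩
  have hinj' : ∀ i j, i < j → j < m → x (K + i) ≠ x (K + j) := by
    intro i j hij hj h
    have h1 : ∀ l, x (K + i + l) = x (K + j + l) := by
      intro l
      induction l with
      | zero => exact h
      | succ l ih =>
        have := hN (K + i + l) (K + j + l) (by omega) (by omega) ih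
        rw [← add_assoc, ← add_assoc, this]
    have h2 := h1 (m - j)
    have h3 : K + j + (m - j) = K + m := by omega
    rw [h3, hm2, add_assoc] at h2
    exact hmin (i + (m - j)) (by omega) (by omega) h2
  refine ⟨m, hm3, fun i => x (K + i.val), ?_, ?_, K, 0, ?_⟩
  · intro i j hij
    have hi := ZMod.val_lt i
    have hj := ZMod.val_lt j
    apply ZMod.val_injective
    rcases Nat.lt_trichotomy i.val j.val with h | h | h
    · exact absurd hij (hinj' _ _ h hj)
    · exact h
    · exact absurd hij.symm (hinj' _ _ h hi)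
  · intro i
    show G.Adj (x (K + i.val)) (x (K + (i + 1).val))
    have h1 : x (K + (i + 1).val) = x (K + i.val + 1) := by
      rw [ZMod.val_add, ← hmod, ZMod.val_one'' (by omega), ← add_assoc]
    rw [h1]
    exact hP (K + i.val + 1) _ (by omega)
  · intro j
    show x (K + j) = x (K + (0 + (j : ZMod m)).val)
    rw [zero_add, ZMod.val_natCast, ← hmod]

end

section

variable {V : Type*} {G : SimpleGraph V} [G.LocallyFinite]
variable [Countable V] [mV : MeasurableSpace V] [DiscreteMeasurableSpace V]
variable {γ : ℝ} {v : V} {μ : Measure (ℕ → V)}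

/-- If almost surely all steps are forward from some time on, then the walk is almost surely
trapped. -/
theorem Can.ae_trapped (h : Can G γ v μ) (hγ : 1 < γ ∨ ∀ w, G.degree w = 2)
    (hF : ∀ᵐ x ∂μ, x ∈ AllFw V) : ∀ᵐ x ∂μ, Trapped G x := by
  rcases hγ with hγ | hdeg
  · filter_upwards [h.ae_not_both hγ, h.ae_isP, hF] with x hx hP hF
    obtain ⟨m, hm⟩ := Set.mem_iUnion.1 hF
    exact trapped_of_unique hP hm (unique_succ (finite_range hm) (hx m hm))
  · filter_upwards [h.ae_isP, hF] with x hP hF
    obtain ⟨m, hm⟩ := Set.mem_iUnion.1 hF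
    exact trapped_of_unique hP hm ⟨m, unique_succ_two hP hm fun n => hdeg _⟩

end

end Pool.Agent.P8H96.ER
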