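import Pool.Agent.P8H96.ER.Lattice

/-!
Transfer to path space; circuits in finite graphs.
-/

set_option autoImplicit false
set_option linter.unusedSectionVars false

namespace Pool.Agent.P8H96.ER

open MeasureTheory Finset Filter Topology
open scoped ENNReal
open Pool.Agent.Results.MP_856411_pr.NotTrapped

section

variable {V : Type*} {G : SimpleGraph V} [G.LocallyFinite]
variable [Countable V] [mV : MeasurableSpace V] [DiscreteMeasurableSpace V]

/-- The law on path space. -/
theorem can_of_isWalk {γ : ℝ} {v : V} {Ω : Type*} {_ : MeasurableSpace Ω} {P : Measure Ω}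
    {X : ℕ → Ω → V} (hX : IsWalk G γ v P X) :
    Measurable (fun ω n => X n ω) ∧ Can G γ v (P.map fun ω n => X n ω) := by
  have hp := hX.prob
  have hm1 : ∀ n, Measurable (X n) := by
    intro n
    refine measurable_to_countable' fun y => ?_
    exact hX.meas n y
  have hm : Measurable (fun ω n => X n ω) := measurable_pi_lambda _ hm1
  refine ⟨hm, Measure.isProbabilityMeasure_map hm.aemeasurable, ?_, ?_⟩
  · have h0 : MeasurableSet {x : ℕ → V | x 0 = v} :=
      measurableSet_local 0 fun x w hw hx => (hw 0 le_rfl).trans hx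
    rw [ae_map_iff hm.aemeasurable h0]
    have h1 : {ω | X 0 ω = v} ∈ ae P := by
      rw [mem_ae_iff_prob_eq_one (hX.meas 0 v)]
      exact hX.start
    exact h1
  · intro n x y
    have hs : MeasurableSet (cyl x n ∩ {w | w (n + 1) = y}) :=
      (measurableSet_cyl x n).inter
        (measurableSet_local (n + 1) fun x w hw hx => (hw (n + 1) le_rfl).trans hx)
    rw [Measure.map_apply hm hs, Measure.map_apply hm (measurableSet_cyl x n)]
    exact hX.step n x y

/-- From path space to `Ω`. -/
theorem trapped_one {γ : ℝ} {v : V} {Ω : Type*} {_ : MeasurableSpace Ω} {P : Measure Ω}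
    {X : ℕ → Ω → V} (hX : IsWalk G γ v P X)
    (h : ∀ μ : Measure (ℕ → V), Can G γ v μ → ∀ᵐ x ∂μ, Trapped G x) :
    P {ω | Trapped G fun n => X n ω} = 1 := by
  have hp := hX.prob
  obtain ⟨hm, hcan⟩ := can_of_isWalk hX
  have h1 := ae_of_ae_map hm.aemeasurable (h _ hcan)
  have h2 : P {ω | Trapped G fun n => X n ω}ᶜ = 0 := h1
  have h3 : P Set.univ ≤ P {ω | Trapped G fun n => X n ω} +
      P {ω | Trapped G fun n => X n ω}ᶜ := by
    rw [← Set.union_compl_self {ω | Trapped G fun n => X n ω}]
    exact measure_union_le _ _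
  rw [measure_univ, h2, add_zero] at h3
  exact le_antisymm prob_le_one h3

end

section

variable {V : Type*} {G : SimpleGraph V}

/-- A connected graph that is not a tree has a circuit. -/
theorem circ_of_not_isTree (hG : G.Connected) (hT : ¬ G.IsTree) : Circ G := by
  have h1 : ¬ G.IsAcyclic := fun h => hT ⟨hG, h⟩
  unfold SimpleGraph.IsAcyclic at h1
  push Not at h1
  obtain ⟨v, c, hc⟩ := h1
  have h3 := hc.three_le_length
  have : NeZero c.length := ⟨by omega⟩
  refine ⟨c.length, h3, fun i => c.getVert i.val, ?_, ?_⟩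
  · intro i j hij
    have hi := ZMod.val_lt i
    have hj := ZMod.val_lt j
    apply ZMod.val_injective
    exact hc.getVert_injOn' (show i.val ≤ c.length - 1 by omega)
      (show j.val ≤ c.length - 1 by omega) hij
  · intro i
    have hi := ZMod.val_lt i
    have h4 := c.adj_getVert_succ hi
    show G.Adj (c.getVert i.val) (c.getVert (i + 1).val)
    have h5 : c.getVert (i + 1).val = c.getVert (i.val + 1) := by
      rw [ZMod.val_add, ZMod.val_one'' (by omega)]
      rcases Nat.lt_or_ge (i.val + 1) c.length with h | h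
      · rw [Nat.mod_eq_of_lt h]
      · have h6 : i.val + 1 = c.length := by omega
        rw [h6, Nat.mod_self, c.getVert_zero, c.getVert_length]
    rw [h5]
    exact h4

variable [G.LocallyFinite]

theorem good_all {γ : ℝ} (hγ : 1 < γ ∨ (1 / 2 < γ ∧ ∀ w, G.degree w = 2)) (A : Finset V) :
    ∃ κ : ℕ → ℝ, Summable κ ∧ (∀ i, 0 ≤ κ i) ∧ Good G γ A κ := by
  rcases hγ with hγ | ⟨hγ, hdeg⟩
  · refine ⟨_, summable_kappa hγ ((((∑ a ∈ A, G.degree a) + 1 : ℕ) : ℝ) ^ (1 + γ)),
      fun i => by positivity, good_of_one_lt G (by linarith) (fun a ha => ?_) (by omega)⟩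
    have := single_le_sum (f := fun a => G.degree a) (fun _ _ => Nat.zero_le _) ha
    omega
  · exact ⟨fun i => (i : ℝ) ^ (-(2 * γ)), Real.summable_nat_rpow.2 (by linarith),
      fun i => by positivity, good_of_degree_two G (by linarith) fun a _ => hdeg a⟩

/-- **Finite graphs.** -/
theorem finite_trapped [Finite V] (hG : G.Connected) (hT : ¬ G.IsTree) {γ : ℝ}
    (hγ : 1 < γ ∨ (1 / 2 < γ ∧ ∀ w, G.degree w = 2)) {v : V} {Ω : Type*} {_ : MeasurableSpace Ω}
    {P : Measure Ω} {X : ℕ → Ω → V} (hX : IsWalk G γ v P X) :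
    P {ω | Trapped G fun n => X n ω} = 1 := by
  let _ : MeasurableSpace V := ⊤
  have : DiscreteMeasurableSpace V := ⟨fun _ => trivial⟩
  refine trapped_one hX fun μ hμ => hμ.ae_trapped (hγ.imp id fun h => h.2) ?_
  filter_upwards [hμ.fin_of_finite hG (circ_of_not_isTree hG hT) (good_all hγ)] with x hx
  exact hx (Set.toFinite _)

end

/-- **The lattice.** -/
theorem lattice_trapped {d : ℕ} (hd : 2 ≤ d) {γ : ℝ} (hγ : 1 < γ) {v : Fin d → ℤ} {Ω : Type*}
    {_ : MeasurableSpace Ω} {P : Measure Ω} {X : ℕ → Ω → Fin d → ℤ}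
    (hX : IsWalk (lattice d) γ v P X) :
    P {ω | Trapped (lattice d) fun n => X n ω} = 1 := by
  let _ : MeasurableSpace (Fin d → ℤ) := ⊤
  have : DiscreteMeasurableSpace (Fin d → ℤ) := ⟨fun _ => trivial⟩
  exact trapped_one hX fun μ hμ => hμ.ae_trapped (Or.inl hγ) (hμ.lattice_fw hγ hd)

/-- A vertex of the lattice of degree different from two. -/
theorem lattice_degree {d : ℕ} (hd : 2 ≤ d) : ∃ w, (lattice d).degree w ≠ 2 := by
  classical
  refine ⟨0, fun h => ?_⟩
  have hne : (⟨0, by omega⟩ : Fin d) ≠ ⟨1, by omega⟩ := by simp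
  set i : Fin d := ⟨0, by omega⟩
  set j : Fin d := ⟨1, by omega⟩
  have h1 : ({uv i 1, uv i (-1), uv j 1} : Finset (Fin d → ℤ)) ⊆ (lattice d).neighborFinset 0 := by
    intro y hy
    rw [SimpleGraph.mem_neighborFinset]
    simp only [mem_insert, mem_singleton] at hy
    rcases hy with rfl | rfl | rfl
    · have := adj_single 0 i (s := 1) (by norm_num)
      rwa [zero_add] at this
    · have := adj_single 0 i (s := -1) (by norm_num)
      rwa [zero_add] at this
    · have := adj_single 0 j (s := 1) (by norm_num)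
      rwa [zero_add] at this
  have h2 := card_le_card h1
  rw [SimpleGraph.card_neighborFinset_eq_degree, h, card_insert_of_notMem, card_pair] at h2
  · omega
  · intro h3
    have := congrFun h3 i
    rw [uv_same, uv_ne hne] at this
    omega
  · rw [mem_insert, mem_singleton, not_or]
    constructor
    · intro h3
      have := congrFun h3 i
      rw [uv_same, uv_same] at this
      omega
    · intro h3
      have := congrFun h3 i
      rw [uv_same, uv_ne hne] at this
      omega

end Pool.Agent.P8H96.ER
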