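import Pool.Agent.P8H96.ER.Proc

/-!
Crossing numbers as a flow: conservation, forward steps, total outflow.
-/

set_option autoImplicit false
set_option linter.unusedSectionVars false

namespace Pool.Agent.P8H96.ER

open MeasureTheory Finset Filter Topology
open scoped ENNReal
open Pool.Agent.Results.MP_856411_pr.NotTrapped

variable {V : Type*}

theorem crossing_swap (x : ℕ → V) (n : ℕ) (a b : V) : crossing x n b a = -crossing x n a b := by
  classical
  unfold crossing
  rw [← sum_neg_distrib]
  exact sum_congr rfl fun k _ => by ring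

open Classical in
theorem crossing_succ (x : ℕ → V) (n : ℕ) (a b : V) : crossing x (n + 1) a b = crossing x n a b +
    ((if x n = a ∧ x (n + 1) = b then 1 else 0) - (if x n = b ∧ x (n + 1) = a then 1 else 0)) := by
  unfold crossing
  rw [sum_range_succ]

open Classical in
theorem crossing_upd (x : ℕ → V) (n : ℕ) (y : V) (a b : V) :
    crossing (upd x n y) (n + 1) a b = crossing x n a b +
    ((if x n = a ∧ y = b then 1 else 0) - (if x n = b ∧ y = a then 1 else 0)) := by
  rw [crossing_succ, upd_succ, upd_le le_rfl]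
  congr 1
  exact crossing_congr (fun i hi => upd_le hi) a b

theorem visited_of_crossing {x : ℕ → V} {n : ℕ} {a b : V} (h : 1 ≤ crossing x n a b) :
    ∃ k ≤ n, x k = b := by
  classical
  by_contra hcon
  push Not at hcon
  have : crossing x n a b ≤ 0 := by
    unfold crossing
    refine sum_nonpos fun k hk => ?_
    rw [if_neg]
    · split_ifs <;> omega
    · rintro ⟨_, h2⟩
      exact hcon (k + 1) (by have := mem_range.1 hk; omega) h2
  omega

/-- `x` is a path of `G` up to time `n`. -/
def IsP (G : SimpleGraph V) (x : ℕ → V) (n : ℕ) : Prop := ∀ i < n, G.Adj (x i) (x (i + 1))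

theorem IsP.upd {G : SimpleGraph V} {x : ℕ → V} {n : ℕ} (h : IsP G x n) {y : V}
    (hy : G.Adj (x n) y) : IsP G (upd x n y) (n + 1) := by
  intro i hi
  rcases Nat.lt_or_ge i n with h1 | h1
  · rw [upd_le h1.le, upd_le h1]; exact h i h1
  · have : i = n := by omega
    subst this
    rw [upd_le le_rfl, upd_succ]; exact hy

variable (G : SimpleGraph V) [G.LocallyFinite]

open Classical in
/-- Conservation. -/
theorem conservation {x : ℕ → V} {n : ℕ} (hx : IsP G x n) (a : V) :
    ∑ b ∈ G.neighborFinset a, crossing x n a b =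
      (if x 0 = a then 1 else 0) - (if x n = a then 1 else 0) := by
  induction n with
  | zero => simp [crossing]
  | succ n ih =>
    have h1 : IsP G x n := fun i hi => hx i (by omega)
    have h2 : G.Adj (x n) (x (n + 1)) := hx n (by omega)
    simp_rw [crossing_succ]
    rw [sum_add_distrib, ih h1, sum_sub_distrib]
    have e1 : ∑ b ∈ G.neighborFinset a, (if x n = a ∧ x (n + 1) = b then (1 : ℤ) else 0) =
        if x n = a then 1 else 0 := by
      by_cases h : x n = a
      · subst h
        simp only [true_and, if_true]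
        rw [sum_ite_eq, if_pos (by simpa using h2)]
      · simp [h]
    have e2 : ∑ b ∈ G.neighborFinset a, (if x n = b ∧ x (n + 1) = a then (1 : ℤ) else 0) =
        if x (n + 1) = a then 1 else 0 := by
      by_cases h : x (n + 1) = a
      · subst h
        simp only [and_true, if_true]
        rw [sum_ite_eq, if_pos (by simpa using h2.symm)]
      · simp [h]
    rw [e1, e2]
    ring

/-- The total outflow at `a`. -/
noncomputable def out (x : ℕ → V) (n : ℕ) (a : V) : ℕ :=
  ∑ b ∈ G.neighborFinset a, (crossing x n a b).toNat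

theorem out_congr {x x' : ℕ → V} {n : ℕ} (h : ∀ i ≤ n, x i = x' i) (a : V) :
    out G x n a = out G x' n a := by
  unfold out
  exact sum_congr rfl fun b _ => by rw [crossing_congr h]

theorem one_le_out {x : ℕ → V} {n : ℕ} {a : V} :
    1 ≤ out G x n a ↔ ∃ b, G.Adj a b ∧ 1 ≤ crossing x n a b := by
  unfold out
  constructor
  · intro h
    obtain ⟨b, hb, h1⟩ : ∃ b ∈ G.neighborFinset a, (crossing x n a b).toNat ≠ 0 := by
      apply exists_ne_zero_of_sum_ne_zero; omega
    exact ⟨b, by simpa using hb, by omega⟩
  · rintro ⟨b, hb, h1⟩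
    have h2 := single_le_sum (f := fun b => (crossing x n a b).toNat) (fun _ _ => Nat.zero_le _)
      (show b ∈ G.neighborFinset a by simpa using hb)
    omega

theorem out_eq_zero {x : ℕ → V} {n : ℕ} {a : V} (h : out G x n a = 0) {b : V} (hb : G.Adj a b) :
    crossing x n a b ≤ 0 := by
  by_contra hcon
  have := (one_le_out G (x := x) (n := n) (a := a)).2 ⟨b, hb, by omega⟩
  omega

/-- If the outflow at the present position is zero, all weights there are one. -/
theorem neg_one_le {x : ℕ → V} {n : ℕ} (hx : IsP G x n) (h : out G x n (x n) = 0) {b : V}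
    (hb : G.Adj (x n) b) : -1 ≤ crossing x n (x n) b := by
  classical
  have h1 := conservation G hx (x n)
  rw [if_pos rfl] at h1
  have h2 : ∑ b ∈ G.neighborFinset (x n), crossing x n (x n) b ≤ crossing x n (x n) b := by
    rw [← add_sum_erase _ _ (show b ∈ G.neighborFinset (x n) by simpa using hb)]
    have : ∑ c ∈ (G.neighborFinset (x n)).erase b, crossing x n (x n) c ≤ 0 :=
      sum_nonpos fun c hc => out_eq_zero G h (by simpa using mem_of_mem_erase hc)
    linarith
  have h3 : (0 : ℤ) ≤ if x 0 = x n then 1 else 0 := by split_ifs <;> omega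
  omega

theorem weight_eq_one {γ : ℝ} {z : ℤ} (h1 : -1 ≤ z) (h2 : z ≤ 0) : weight γ z = 1 := by
  unfold weight
  rw [if_neg (by omega)]
  split_ifs with h
  · rfl
  · have h3 : z = -1 := by omega
    have h4 : (-(z : ℝ)) = 1 := by rw [h3]; norm_num
    rw [h4, Real.one_rpow]

theorem weight_le_one {γ : ℝ} (hγ : 0 ≤ γ) {z : ℤ} (h : z ≤ 0) : weight γ z ≤ 1 := by
  unfold weight
  rw [if_neg (by omega)]
  split_ifs with h
  · exact le_rfl
  · have h1 : z ≤ -1 := by omega
    have h2 : (z : ℝ) ≤ -1 := by exact_mod_cast h1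
    exact Real.rpow_le_one_of_one_le_of_nonpos (by linarith) (by linarith)

theorem stepProb_of_out_zero (γ : ℝ) {x : ℕ → V} {n : ℕ} (hx : IsP G x n)
    (h : out G x n (x n) = 0) {y : V} (hy : G.Adj (x n) y) :
    stepProb G γ x n y = 1 / G.degree (x n) := by
  unfold stepProb
  rw [if_pos hy, weight_eq_one (neg_one_le G hx h hy) (out_eq_zero G h hy)]
  congr 1
  rw [sum_congr rfl (g := fun _ => (1 : ℝ))]
  · simp
  · intro z hz
    have hz' : G.Adj (x n) z := by simpa using hz
    exact weight_eq_one (neg_one_le G hx h hz') (out_eq_zero G h hz')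

/-- The step at time `n` to `y` is forward: along an edge that has been crossed in this direction
more often than in the other. -/
def Fw (n : ℕ) (x : ℕ → V) (y : V) : Prop := 1 ≤ crossing x n (x n) y

theorem loc_Fw : Loc (Fw (V := V)) := by
  intro k x w y hw
  unfold Fw
  rw [crossing_congr hw, hw k le_rfl]

/-- A forward step leads to a vertex with positive outflow. -/
theorem out_after {x : ℕ → V} {n : ℕ} (hx : IsP G x n) {y : V} (hy : G.Adj (x n) y)
    (hf : Fw n x y) : 1 ≤ out G (upd x n y) (n + 1) y := by
  classical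
  have hne : x n ≠ y := hy.ne
  have h1 := conservation G (hx.upd hy) y
  rw [upd_succ, if_pos rfl] at h1
  rw [one_le_out]
  by_contra hcon
  push Not at hcon
  have h2 : ∑ b ∈ G.neighborFinset y, crossing (upd x n y) (n + 1) y b ≤
      crossing (upd x n y) (n + 1) y (x n) := by
    rw [← add_sum_erase _ _ (show x n ∈ G.neighborFinset y by simpa using hy.symm)]
    have : ∑ c ∈ (G.neighborFinset y).erase (x n), crossing (upd x n y) (n + 1) y c ≤ 0 :=
      sum_nonpos fun c hc => by
        have := hcon c (by simpa using mem_of_mem_erase hc)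
        omega
    linarith
  have h3 : crossing (upd x n y) (n + 1) y (x n) ≤ -2 := by
    rw [crossing_upd, if_neg (fun h => hne h.1), if_pos ⟨rfl, rfl⟩, crossing_swap]
    unfold Fw at hf
    omega
  have h4 : (0 : ℤ) ≤ if (upd x n y) 0 = y then 1 else 0 := by split_ifs <;> omega
  omega

theorem crossing_upd_self {x : ℕ → V} {n : ℕ} {y : V} (hy : G.Adj (x n) y) :
    crossing (upd x n y) (n + 1) (x n) y = crossing x n (x n) y + 1 := by
  classical
  have hne : x n ≠ y := hy.ne
  rw [crossing_upd, if_pos ⟨rfl, rfl⟩, if_neg (fun h => hne h.1)]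
  ring

theorem crossing_upd_other {x : ℕ → V} {n : ℕ} {y : V} {a b : V}
    (h1 : ¬ (x n = a ∧ y = b)) (h2 : ¬ (x n = b ∧ y = a)) :
    crossing (upd x n y) (n + 1) a b = crossing x n a b := by
  classical
  rw [crossing_upd, if_neg h1, if_neg h2]
  ring

theorem out_upd_self {x : ℕ → V} {n : ℕ} {y : V} (hy : G.Adj (x n) y) (hf : Fw n x y) :
    out G (upd x n y) (n + 1) (x n) = out G x n (x n) + 1 := by
  classical
  have hne : x n ≠ y := hy.ne
  have hy' : y ∈ G.neighborFinset (x n) := by simpa using hy
  unfold out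
  rw [← add_sum_erase _ _ hy', ← add_sum_erase (G.neighborFinset (x n))
    (fun b => (crossing x n (x n) b).toNat) hy']
  have h1 : ∑ b ∈ (G.neighborFinset (x n)).erase y, (crossing (upd x n y) (n + 1) (x n) b).toNat =
      ∑ b ∈ (G.neighborFinset (x n)).erase y, (crossing x n (x n) b).toNat := by
    refine sum_congr rfl fun b hb => ?_
    rw [crossing_upd_other (fun h => (ne_of_mem_erase hb) h.2.symm) (fun h => hne h.2.symm)]
  rw [h1, crossing_upd_self G hy]
  unfold Fw at hf
  omega

theorem out_upd_other {x : ℕ → V} {n : ℕ} {y : V} (hy : G.Adj (x n) y) (hf : Fw n x y) {a : V}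
    (ha : a ≠ x n) : out G (upd x n y) (n + 1) a = out G x n a := by
  classical
  unfold out
  refine sum_congr rfl fun b _ => ?_
  by_cases h : x n = b ∧ y = a
  · obtain ⟨rfl, rfl⟩ := h
    rw [crossing_swap _ _ (x n) y, crossing_upd_self G hy, crossing_swap _ _ (x n) y]
    unfold Fw at hf
    omega
  · rw [crossing_upd_other (fun h => ha h.1.symm) h]

end Pool.Agent.P8H96.ER
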