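import Pool.Agent.P8H96.ER.Circuit

/-!
The lattice `ℤ ^ d`: whenever a coordinate has a record, there is a fresh unit square, and the walk
goes round it for ever with probability bounded from below.
-/

set_option autoImplicit false
set_option linter.unusedSectionVars false

namespace Pool.Agent.P8H96.ER

open MeasureTheory Finset Filter Topology
open scoped ENNReal
open Pool.Agent.Results.MP_856411_pr.NotTrapped

/-- The nearest neighbour graph on `ℤ ^ d`. -/
def lattice (d : ℕ) : SimpleGraph (Fin d → ℤ) where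
  Adj x y := ∑ i, |x i - y i| = 1
  symm := ⟨fun x y h => by
    rw [← h]
    exact sum_congr rfl fun i _ => abs_sub_comm _ _⟩
  loopless := ⟨fun x h => by simp at h⟩

variable {d : ℕ}

theorem lattice_adj {x y : Fin d → ℤ} : (lattice d).Adj x y ↔ ∑ i, |x i - y i| = 1 := Iff.rfl

theorem mem_Icc_of_adj {x y : Fin d → ℤ} (h : (lattice d).Adj x y) : y ∈ Finset.Icc (x - 1) (x + 1) := by
  rw [lattice_adj] at h
  have h1 : ∀ i, |x i - y i| ≤ 1 := fun i => by
    rw [← h]
    exact single_le_sum (f := fun i => |x i - y i|) (fun _ _ => abs_nonneg _) (mem_univ i)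
  rw [Finset.mem_Icc]
  constructor
  · intro i
    have := abs_le.1 (h1 i)
    simp only [Pi.sub_apply, Pi.one_apply]
    omega
  · intro i
    have := abs_le.1 (h1 i)
    simp only [Pi.add_apply, Pi.one_apply]
    omega

noncomputable instance (d : ℕ) : (lattice d).LocallyFinite := fun x =>
  have : Finite ((lattice d).neighborSet x) :=
    (Set.Finite.subset (Finset.Icc (x - 1) (x + 1)).finite_toSet fun _ hy => mem_Icc_of_adj hy)
  Fintype.ofFinite _

theorem degree_le (x : Fin d → ℤ) : (lattice d).degree x ≤ 3 ^ d := by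
  rw [← SimpleGraph.card_neighborFinset_eq_degree]
  have h1 : (lattice d).neighborFinset x ⊆ Finset.Icc (x - 1) (x + 1) := fun y hy =>
    mem_Icc_of_adj (by simpa using hy)
  refine (card_le_card h1).trans ?_
  rw [Pi.card_Icc]
  refine le_of_eq ?_
  rw [prod_congr rfl (g := fun _ => 3)]
  · simp
  · intro i _
    simp only [Pi.sub_apply, Pi.add_apply, Pi.one_apply, Int.card_Icc]
    omega

/-- The vector with the entry `s` at `i`. -/
def uv (i : Fin d) (s : ℤ) : Fin d → ℤ := fun j => if j = i then s else 0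

theorem uv_same (i : Fin d) (s : ℤ) : uv i s i = s := if_pos rfl

theorem uv_ne {i j : Fin d} (h : j ≠ i) (s : ℤ) : uv i s j = 0 := if_neg h

theorem adj_single (x : Fin d → ℤ) (i : Fin d) {s : ℤ} (hs : |s| = 1) :
    (lattice d).Adj x (x + uv i s) := by
  rw [lattice_adj]
  rw [sum_eq_single i]
  · rw [Pi.add_apply, uv_same, sub_add_cancel_left, abs_neg, hs]
  · intro j _ hj
    rw [Pi.add_apply, uv_ne hj]
    simp
  · intro h; exact absurd (mem_univ _) h

theorem lattice_connected (d : ℕ) : (lattice d).Connected := by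
  have h1 : ∀ (N : ℕ) (x : Fin d → ℤ), ∑ i, (x i).natAbs = N → (lattice d).Reachable 0 x := by
    intro N
    induction N with
    | zero =>
      intro x hx
      have : x = 0 := by
        funext i
        have := (sum_eq_zero_iff.1 hx) i (mem_univ i)
        simpa using this
      rw [this]
    | succ N ih =>
      intro x hx
      obtain ⟨i, hi⟩ : ∃ i, (x i).natAbs ≠ 0 := by
        by_contra hcon
        push Not at hcon
        rw [sum_eq_zero fun i _ => hcon i] at hx
        omega
      obtain ⟨s, hs, hs'⟩ : ∃ s : ℤ, |s| = 1 ∧ (x i + s).natAbs + 1 = (x i).natAbs := by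
        rcases lt_or_ge (x i) 0 with h | h
        · exact ⟨1, by norm_num, by omega⟩
        · exact ⟨-1, by norm_num, by omega⟩
      have h2 : ∑ j, ((x + uv i s) j).natAbs = N := by
        rw [← add_sum_erase _ _ (mem_univ i)] at hx ⊢
        have h3 : ∑ j ∈ univ.erase i, ((x + uv i s) j).natAbs =
            ∑ j ∈ univ.erase i, (x j).natAbs := by
          refine sum_congr rfl fun j hj => ?_
          rw [Pi.add_apply, uv_ne (ne_of_mem_erase hj), add_zero]
        rw [h3, Pi.add_apply, uv_same]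
        omega
      exact (ih _ h2).trans (adj_single x i hs).symm.reachable
  refine ⟨fun x y => (h1 _ x rfl).symm.trans (h1 _ y rfl)⟩

/-- The unit square. -/
def sq (p : Fin d → ℤ) (i j : Fin d) (s : ℤ) : ZMod 4 → Fin d → ℤ :=
  ![p, p + uv i s, p + uv i s + uv j 1, p + uv j 1]

theorem sq_adj (p : Fin d → ℤ) {i j : Fin d} {s : ℤ} (hs : |s| = 1) (l : ZMod 4) :
    (lattice d).Adj (sq p i j s l) (sq p i j s (l + 1)) := by
  have h1 : |(1 : ℤ)| = 1 := by norm_num
  fin_cases l
  · exact adj_single p i hs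
  · exact adj_single _ j h1
  · have := adj_single (p + uv j 1) i hs
    rw [add_right_comm] at this
    exact this.symm
  · exact (adj_single p j h1).symm

theorem sq_inj (p : Fin d → ℤ) {i j : Fin d} (hij : i ≠ j) {s : ℤ} (hs : |s| = 1) :
    Function.Injective (sq p i j s) := by
  have hs0 : s ≠ 0 := by rintro rfl; norm_num at hs
  have hi : ∀ l, sq p i j s l i = ![p i, p i + s, p i + s, p i] l := by
    intro l
    fin_cases l
    · rfl
    · show (p + uv i s) i = _
      simp [uv_same]
    · show (p + uv i s + uv j 1) i = _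
      simp [uv_ne hij, uv_same]
    · show (p + uv j 1) i = _
      simp [uv_ne hij]
  have hj : ∀ l, sq p i j s l j = ![p j, p j, p j + 1, p j + 1] l := by
    intro l
    fin_cases l
    · rfl
    · show (p + uv i s) j = _
      simp [uv_ne hij.symm, uv_same]
    · show (p + uv i s + uv j 1) j = _
      simp [uv_ne hij.symm, uv_same]
    · show (p + uv j 1) j = _
      simp [uv_same]
  intro l l' h
  have h1 := congrFun h i
  have h2 := congrFun h j
  rw [hi, hi] at h1
  rw [hj, hj] at h2
  fin_cases l <;> fin_cases l' <;> first | rfl | (exfalso; simp_all)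

/-! ### Records -/

/-- At time `n` the coordinate `i` has a record in the direction `s`. -/
def Rec (i : Fin d) (s : ℤ) (n : ℕ) (x : ℕ → Fin d → ℤ) : Prop :=
  ∀ k < n, s * x k i < s * x n i

/-- Vertices not visited before have no outflow. -/
theorem crossing_fresh {V : Type*} {z : ℕ → V} {m : ℕ} {a : V} (h : ∀ k < m, z k ≠ a) (c : V) :
    crossing z m a c ≤ 0 := by
  classical
  unfold crossing
  refine sum_nonpos fun k hk => ?_
  rw [if_neg (fun h' => h k (mem_range.1 hk) h'.1)]
  split_ifs <;> omega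

theorem out_fresh {V : Type*} {G : SimpleGraph V} [G.LocallyFinite] {z : ℕ → V} {m : ℕ} {a : V}
    (h : ∀ k < m, z k ≠ a) : out G z m a = 0 := by
  by_contra hcon
  obtain ⟨b, _, hb⟩ := (one_le_out G).1 (Nat.one_le_iff_ne_zero.2 hcon)
  have := crossing_fresh h b
  omega

theorem sq_coord (p : Fin d → ℤ) {i j : Fin d} (hij : i ≠ j) {s : ℤ} (hs : |s| = 1) (l : ZMod 4) :
    s * p i ≤ s * sq p i j s l i := by
  have hss : s * s = 1 := by
    rcases (abs_eq (by norm_num : (0 : ℤ) ≤ 1)).1 hs with rfl | rfl <;> norm_num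
  fin_cases l
  · exact le_rfl
  · show s * p i ≤ s * (p + uv i s) i
    rw [Pi.add_apply, uv_same]
    linarith [mul_add s (p i) s]
  · show s * p i ≤ s * (p + uv i s + uv j 1) i
    rw [Pi.add_apply, Pi.add_apply, uv_same, uv_ne hij, add_zero]
    linarith [mul_add s (p i) s]
  · show s * p i ≤ s * (p + uv j 1) i
    rw [Pi.add_apply, uv_ne hij, add_zero]

/-- The path continued round the unit square. -/
def zq (x : ℕ → Fin d → ℤ) (n : ℕ) (i j : Fin d) (s : ℤ) : ℕ → Fin d → ℤ :=
  cat x n (fun l : ℕ => sq (x n) i j s (l : ZMod 4))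

section

variable {x : ℕ → Fin d → ℤ} {n : ℕ} {i j : Fin d} {s : ℤ}

theorem zq_add (l : ℕ) : zq x n i j s (n + l) = sq (x n) i j s (l : ZMod 4) := cat_add _ _ _ _

theorem zq_zero : zq x n i j s n = x n := by
  have := zq_add (x := x) (n := n) (i := i) (j := j) (s := s) 0
  rw [add_zero] at this
  rw [this]
  rfl

theorem zq_isP (hx : IsP (lattice d) x n) (hs : |s| = 1) (m : ℕ) :
    IsP (lattice d) (zq x n i j s) m := by
  refine cat_isP hx rfl (fun l => ?_) m
  push_cast
  exact sq_adj _ hs _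

theorem zq_cyl : cyl (zq x n i j s) n = cyl x n := by
  refine cyl_congr fun k hk => ?_
  rcases Nat.lt_or_ge k n with h | h
  · exact cat_lt h
  · have : k = n := by omega
    rw [this, zq_zero]

/-- The square has not been visited before. -/
theorem zq_fresh (hij : i ≠ j) (hs : |s| = 1) (hR : Rec i s n x) (l : ZMod 4) {k : ℕ} (hk : k < n) :
    zq x n i j s k ≠ sq (x n) i j s l := by
  intro h
  have h1 : zq x n i j s k = x k := cat_lt hk
  rw [h1] at h
  have h2 := hR k hk
  have h3 := sq_coord (x n) hij hs l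
  rw [← h] at h3
  omega

theorem natCast_inj_four {a b : ℕ} (ha : a < 4) (hb : b < 4)
    (h : ((a : ℕ) : ZMod 4) = (b : ZMod 4)) : a = b := by
  rw [ZMod.natCast_eq_natCast_iff'] at h
  omega

theorem zq_out_zero (hij : i ≠ j) (hs : |s| = 1) (hR : Rec i s n x) {l : ℕ} (hl : l < 4) :
    out (lattice d) (zq x n i j s) (n + l) (zq x n i j s (n + l)) = 0 := by
  refine out_fresh fun k hk => ?_
  rw [zq_add]
  rcases Nat.lt_or_ge k n with h | h
  · exact zq_fresh hij hs hR _ h
  · obtain ⟨r, rfl⟩ := Nat.exists_eq_add_of_le h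
    rw [zq_add]
    intro h'
    have := natCast_inj_four (by omega) hl (sq_inj _ hij hs h')
    omega

/-- The vertices of the square. -/
def sqA (p : Fin d → ℤ) (i j : Fin d) (s : ℤ) : Finset (Fin d → ℤ) :=
  (univ : Finset (ZMod 4)).image (sq p i j s)

theorem card_sqA (p : Fin d → ℤ) (i j : Fin d) (s : ℤ) : #(sqA p i j s) ≤ 4 :=
  card_image_le

theorem zq_inv (hx : IsP (lattice d) x n) (hij : i ≠ j) (hs : |s| = 1) (hR : Rec i s n x) :
    Inv (lattice d) (sqA (x n) i j s) (n + 4) (zq x n i j s) := by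
  classical
  have h4 : zq x n i j s (n + 4) = sq (x n) i j s 0 := zq_add 4
  have hmem : ∀ l, sq (x n) i j s l ∈ sqA (x n) i j s := fun l =>
    mem_image_of_mem _ (mem_univ l)
  refine ⟨zq_isP hx hs _, ?_, ?_, ?_⟩
  · rw [h4]; exact hmem 0
  · rw [h4, one_le_out]
    refine ⟨sq (x n) i j s 1, ?_, ?_⟩
    · have := sq_adj (x n) (i := i) (j := j) hs 0
      rwa [zero_add] at this
    · have hinj := sq_inj (x n) hij hs
      have hn : ∀ k < n, zq x n i j s k ≠ sq (x n) i j s 0 ∧ zq x n i j s k ≠ sq (x n) i j s 1 :=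
        fun k hk => ⟨zq_fresh hij hs hR 0 hk, zq_fresh hij hs hR 1 hk⟩
      unfold crossing
      rw [sum_range_add, sum_eq_zero, zero_add]
      · have e : ∀ r : ℕ, r < 4 → ((if zq x n i j s (n + r) = sq (x n) i j s 0 ∧
            zq x n i j s (n + r + 1) = sq (x n) i j s 1 then (1 : ℤ) else 0) -
            (if zq x n i j s (n + r) = sq (x n) i j s 1 ∧
            zq x n i j s (n + r + 1) = sq (x n) i j s 0 then 1 else 0)) =
            if r = 0 then 1 else 0 := by
          intro r hr
          have e1 : (zq x n i j s (n + r) = sq (x n) i j s 0 ∧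
            zq x n i j s (n + r + 1) = sq (x n) i j s 1) ↔ r = 0 := by
            rw [add_assoc, zq_add, zq_add]
            constructor
            · rintro ⟨h1, -⟩
              exact natCast_inj_four hr (by norm_num) (by rw [hinj h1]; rfl)
            · rintro rfl
              exact ⟨rfl, rfl⟩
          have e2 : ¬ (zq x n i j s (n + r) = sq (x n) i j s 1 ∧
            zq x n i j s (n + r + 1) = sq (x n) i j s 0) := by
            rw [add_assoc, zq_add, zq_add]
            rintro ⟨h1, h2⟩
            have h3 : r = 1 := natCast_inj_four hr (by norm_num) (by rw [hinj h1]; rfl)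
            subst h3
            have h4 := hinj h2
            revert h4
            decide
          rw [if_neg e2, sub_zero]
          simp only [e1]
        have e6 : ∀ S : ℤ, S = ∑ r ∈ range 4, (if r = 0 then (1 : ℤ) else 0) → 1 ≤ S := by
          rintro S rfl
          simp
        apply e6
        refine sum_congr rfl fun r hr => ?_
        convert e r (mem_range.1 hr)
      · intro k hk
        have := hn k (mem_range.1 hk)
        rw [if_neg (fun h => this.1 h.1), if_neg (fun h => this.2 h.1), sub_zero]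
  · intro a ha b _ hc
    obtain ⟨l, -, rfl⟩ := mem_image.1 ha
    have hex : ∃ k, k < n + 4 ∧ zq x n i j s k = sq (x n) i j s l ∧ zq x n i j s (k + 1) = b := by
      by_contra hcon
      push Not at hcon
      have : crossing (zq x n i j s) (n + 4) (sq (x n) i j s l) b ≤ 0 := by
        unfold crossing
        refine sum_nonpos fun k hk => ?_
        rw [if_neg (fun h' => hcon k (mem_range.1 hk) h'.1 h'.2)]
        split_ifs <;> omega
      omega
    obtain ⟨k, hk1, hk2, rfl⟩ := hex
    rcases Nat.lt_or_ge k n with h | h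
    · exact absurd hk2 (zq_fresh hij hs hR _ h)
    · obtain ⟨r, rfl⟩ := Nat.exists_eq_add_of_le h
      rw [add_assoc, zq_add]
      exact hmem _

end

/-- A bounded path from records. -/
theorem bounded_of_not_rec {x : ℕ → Fin d → ℤ} {i : Fin d} {s : ℤ}
    (h : ¬ ∃ᶠ n in atTop, Rec i s n x) : ∃ C, ∀ n, s * x n i ≤ C := by
  rw [not_frequently, eventually_atTop] at h
  obtain ⟨N, hN⟩ := h
  obtain ⟨C, hC⟩ : ∃ C, ∀ k < N, s * x k i ≤ C := by
    refine ⟨∑ k ∈ range N, |s * x k i|, fun k hk => ?_⟩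
    exact (le_abs_self _).trans (single_le_sum (f := fun k => |s * x k i|)
      (fun _ _ => abs_nonneg _) (mem_range.2 hk))
  refine ⟨C, fun n => ?_⟩
  induction n using Nat.strong_induction_on with
  | _ n ih =>
    rcases Nat.lt_or_ge n N with h | h
    · exact hC n h
    · have h1 := hN n h
      unfold Rec at h1
      push Not at h1
      obtain ⟨k, hk1, hk2⟩ := h1
      exact hk2.trans (ih k hk1)

theorem finite_of_not_rec {x : ℕ → Fin d → ℤ}
    (h : ∀ i, ∀ s : ℤ, |s| = 1 → ¬ ∃ᶠ n in atTop, Rec i s n x) : (Set.range x).Finite := by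
  have h1 : ∀ i, ∃ C, ∀ n, (1 : ℤ) * x n i ≤ C := fun i =>
    bounded_of_not_rec (h i 1 (by norm_num))
  have h2 : ∀ i, ∃ C, ∀ n, (-1 : ℤ) * x n i ≤ C := fun i =>
    bounded_of_not_rec (h i (-1) (by norm_num))
  choose C hC using h1
  choose C' hC' using h2
  refine (Finset.Icc (fun i => -C' i) C).finite_toSet.subset ?_
  rintro _ ⟨n, rfl⟩
  rw [Finset.mem_coe, Finset.mem_Icc]
  constructor
  · intro i
    have := hC' i n
    show -C' i ≤ x n i
    omega
  · intro i
    have := hC i n
    show x n i ≤ C i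
    omega

section

variable [mV : MeasurableSpace (Fin d → ℤ)] [DiscreteMeasurableSpace (Fin d → ℤ)]
variable {γ : ℝ} {v : Fin d → ℤ} {μ : Measure (ℕ → Fin d → ℤ)}

theorem lattice_circ (hd : 2 ≤ d) : Circ (lattice d) := by
  have hne : (⟨0, by omega⟩ : Fin d) ≠ ⟨1, by omega⟩ := by simp
  exact ⟨4, by norm_num, sq 0 ⟨0, by omega⟩ ⟨1, by omega⟩ 1, sq_inj 0 hne (by norm_num),
    sq_adj 0 (by norm_num)⟩

theorem summable_kappa {γ : ℝ} (hγ : 1 < γ) (c : ℝ) : Summable fun i : ℕ => c * (i : ℝ) ^ (-γ) :=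
  (Real.summable_nat_rpow.2 (by linarith)).mul_left _

/-- On the lattice all steps are forward from some time on. -/
theorem Can.lattice_fw (h : Can (lattice d) γ v μ) (hγ : 1 < γ) (hd : 2 ≤ d) :
    ∀ᵐ x ∂μ, x ∈ AllFw (Fin d → ℤ) := by
  have hp := h.prob
  have hgood : ∀ A : Finset (Fin d → ℤ), Good (lattice d) γ A
      (fun i => ((3 ^ d : ℕ) : ℝ) ^ (1 + γ) * (i : ℝ) ^ (-γ)) := fun A =>
    good_of_one_lt (lattice d) (by linarith) (fun a _ => degree_le a) (Nat.one_le_pow _ _ (by norm_num))
  have hsum := summable_kappa hγ (((3 ^ d : ℕ) : ℝ) ^ (1 + γ))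
  have h0 : ∀ i : ℕ, 0 ≤ ((3 ^ d : ℕ) : ℝ) ^ (1 + γ) * (i : ℝ) ^ (-γ) := fun i => by positivity
  set κ : ℕ → ℝ := fun i => ((3 ^ d : ℕ) : ℝ) ^ (1 + γ) * (i : ℝ) ^ (-γ) with hκ
  have hfin := h.fin_of_finite (lattice_connected d) (lattice_circ hd)
    fun A => ⟨κ, hsum, h0, hgood A⟩
  have hrec : ∀ᵐ x ∂μ, ∀ (i : Fin d) (s : ℤ), |s| = 1 → (∃ᶠ n in atTop, Rec i s n x) →
      x ∈ AllFw (Fin d → ℤ) := by
    simp only [ae_all_iff]
    intro i s hs
    obtain ⟨j, hij⟩ : ∃ j, i ≠ j := by
      by_cases hi : i = ⟨0, by omega⟩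
      · exact ⟨⟨1, by omega⟩, by rw [hi]; simp⟩
      · exact ⟨⟨0, by omega⟩, hi⟩
    refine levy μ measurableSet_AllFw
      (δ := (1 / ((3 ^ d : ℕ) : ℝ)) ^ 4 * Real.exp (-(4 * tl κ 0))) (by positivity) ?_
    intro n x hpos hR
    have hx := h.isP_of_pos hpos
    have h1 := h.follow (D := 3 ^ d) (Nat.one_le_pow _ _ (by norm_num)) (zq x n i j s) n 4
      (zq_isP hx hs _) (fun l hl => zq_out_zero hij hs hR hl) (fun l _ => degree_le _)
    rw [zq_cyl] at h1
    have h2 := h.forward hsum h0 (hgood _) (zq_inv hx hij hs hR)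
    have h3 : Real.exp (-(4 * tl κ 0)) ≤
        Real.exp (-(#(sqA (x n) i j s) * tl κ 0)) := by
      rw [Real.exp_le_exp, neg_le_neg_iff]
      refine mul_le_mul_of_nonneg_right ?_ (tl_nonneg h0 0)
      exact_mod_cast card_sqA (x n) i j s
    calc (1 / ((3 ^ d : ℕ) : ℝ)) ^ 4 * Real.exp (-(4 * tl κ 0)) * μ.real (cyl x n)
        = Real.exp (-(4 * tl κ 0)) * ((1 / ((3 ^ d : ℕ) : ℝ)) ^ 4 * μ.real (cyl x n)) := by ring
      _ ≤ Real.exp (-(4 * tl κ 0)) * μ.real (cyl (zq x n i j s) (n + 4)) :=
          mul_le_mul_of_nonneg_left h1 (Real.exp_pos _).le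
      _ ≤ Real.exp (-(#(sqA (x n) i j s) * tl κ 0)) * μ.real (cyl (zq x n i j s) (n + 4)) :=
          mul_le_mul_of_nonneg_right h3 measureReal_nonneg
      _ ≤ _ := h2
      _ ≤ μ.real (AllFw (Fin d → ℤ) ∩ cyl x n) := by
          refine measureReal_mono ?_ (measure_ne_top _ _)
          refine Set.inter_subset_inter (Set.subset_iUnion _ _) ?_
          rw [← zq_cyl (x := x) (n := n) (i := i) (j := j) (s := s)]
          exact cyl_anti (by omega)
  filter_upwards [hfin, hrec] with x hx1 hx2
  by_contra hcon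
  exact hcon (hx1 (finite_of_not_rec fun i s hs hf => hcon (hx2 i s hs hf)))

end

end Pool.Agent.P8H96.ER
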