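import Mathlib

/-!
Path space over a countable set: cylinders, and the zero-one law of Lévy in terms of cylinders.
-/

set_option autoImplicit false

namespace Pool.Agent.P8H96.ER

open MeasureTheory Finset Filter Topology
open scoped ENNReal

section

variable {V : Type*}

/-- The paths which agree with `x` up to time `n`. -/
def cyl (x : ℕ → V) (n : ℕ) : Set (ℕ → V) := {w | ∀ i ≤ n, w i = x i}

theorem mem_cyl {x w : ℕ → V} {n : ℕ} : w ∈ cyl x n ↔ ∀ i ≤ n, w i = x i := Iff.rfl

theorem self_mem_cyl (x : ℕ → V) (n : ℕ) : x ∈ cyl x n := fun _ _ => rfl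

theorem cyl_congr {x w : ℕ → V} {n : ℕ} (h : w ∈ cyl x n) : cyl w n = cyl x n := by
  ext z
  exact ⟨fun hz i hi => (hz i hi).trans (h i hi), fun hz i hi => (hz i hi).trans (h i hi).symm⟩

/-- The history up to time `n`. -/
def hist (n : ℕ) (w : ℕ → V) : Fin (n + 1) → V := fun i => w i

theorem hist_eq_iff {n : ℕ} {x w : ℕ → V} : hist n w = hist n x ↔ w ∈ cyl x n := by
  constructor
  · intro h i hi
    exact congrFun h ⟨i, by omega⟩
  · intro h
    funext i
    exact h i (by omega)

variable [Countable V] [mV : MeasurableSpace V] [DiscreteMeasurableSpace V]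

theorem measurableSet_cyl (x : ℕ → V) (n : ℕ) : MeasurableSet (cyl x n) := by
  have : cyl x n = ⋂ i ∈ {i | i ≤ n}, (fun w : ℕ → V => w i) ⁻¹' {x i} := by
    ext w; simp [cyl]
  rw [this]
  refine MeasurableSet.biInter (Set.to_countable _) fun i _ => ?_
  exact (measurable_pi_apply i) (MeasurableSet.of_discrete)

theorem measurable_hist (n : ℕ) : @Measurable _ _ _ ⊤ (hist (V := V) n) := by
  refine @measurable_to_countable' (Fin (n + 1) → V) (ℕ → V) ⊤ _ _ _ fun y => ?_
  rcases Set.eq_empty_or_nonempty (hist n ⁻¹' {y}) with h | ⟨x, hx⟩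
  · rw [h]; exact MeasurableSet.empty
  · have : hist n ⁻¹' {y} = cyl x n := by
      ext w
      rw [← hist_eq_iff]
      have hx' : hist n x = y := hx
      rw [hx']
      rfl
    rw [this]
    exact measurableSet_cyl x n

/-- The filtration of the histories. -/
def Filt : Filtration ℕ (MeasurableSpace.pi : MeasurableSpace (ℕ → V)) where
  seq n := MeasurableSpace.comap (hist n) ⊤
  mono' := by
    intro n m hnm
    have : (hist n : (ℕ → V) → _) = (fun (z : Fin (m + 1) → V) (i : Fin (n + 1)) =>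
        z ⟨i, by have := i.2; omega⟩) ∘ hist m := rfl
    show MeasurableSpace.comap (hist n) ⊤ ≤ MeasurableSpace.comap (hist m) ⊤
    rw [this, ← MeasurableSpace.comap_comp]
    exact MeasurableSpace.comap_mono le_top
  le' := fun n => (measurable_hist n).comap_le

theorem measurableSet_filt_cyl (x : ℕ → V) (n : ℕ) : MeasurableSet[Filt n] (cyl x n) := by
  refine ⟨{hist n x}, trivial, ?_⟩
  ext w
  simp only [Set.mem_preimage, Set.mem_singleton_iff]
  exact hist_eq_iff

theorem filt_sup : (⨆ n, (Filt (V := V)) n) = MeasurableSpace.pi := by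
  apply le_antisymm
  · exact iSup_le fun n => Filt.le n
  · refine iSup_le fun a => ?_
    refine le_trans ?_ (le_iSup (fun n => (Filt (V := V)) n) a)
    intro s hs
    obtain ⟨t, _, rfl⟩ := hs
    refine ⟨{z | z (Fin.last a) ∈ t}, trivial, ?_⟩
    ext w
    rfl

/-- A function measurable for the histories up to time `n` is constant on cylinders. -/
theorem const_on_cyl {n : ℕ} {f : (ℕ → V) → ℝ} (hf : Measurable[Filt n] f) {x w : ℕ → V}
    (h : w ∈ cyl x n) : f w = f x := by
  obtain ⟨t, _, ht⟩ := hf (measurableSet_singleton (f x))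
  have h1 : x ∈ f ⁻¹' {f x} := rfl
  rw [← ht] at h1
  have h2 : w ∈ f ⁻¹' {f x} := by
    rw [← ht]
    show hist n w ∈ t
    rw [hist_eq_iff.2 h]
    exact h1
  exact h2

theorem ae_cyl_pos (μ : Measure (ℕ → V)) (n : ℕ) : ∀ᵐ x ∂μ, μ (cyl x n) ≠ 0 := by
  rw [ae_iff]
  have : {x | ¬ μ (cyl x n) ≠ 0} ⊆ ⋃ y ∈ Set.range (fun x : ℕ → V => hist n x),
      {x | hist n x = y ∧ μ (cyl x n) = 0} := by
    intro x hx
    simp only [ne_eq, not_not, Set.mem_ofPred_eq] at hx
    exact Set.mem_biUnion ⟨x, rfl⟩ ⟨rfl, hx⟩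
  refine measure_mono_null this ((measure_biUnion_null_iff (Set.to_countable _)).2 fun y _ => ?_)
  rcases Set.eq_empty_or_nonempty {x : ℕ → V | hist n x = y ∧ μ (cyl x n) = 0} with h | ⟨x, hx⟩
  · rw [h]; exact measure_empty
  · refine measure_mono_null ?_ hx.2
    intro w hw
    rw [← hist_eq_iff, hw.1, hx.1]

/-- **The zero-one law of Lévy.** If, whenever `Q n` holds for the path, the event `A` has
conditional probability at least `δ` given the path up to time `n`, then `A` holds almost surely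
when `Q n` holds for infinitely many `n`. -/
theorem levy (μ : Measure (ℕ → V)) [IsProbabilityMeasure μ] {A : Set (ℕ → V)}
    (hA : MeasurableSet A) {Q : ℕ → (ℕ → V) → Prop} {δ : ℝ} (hδ : 0 < δ)
    (h : ∀ n x, μ (cyl x n) ≠ 0 → Q n x → δ * μ.real (cyl x n) ≤ μ.real (A ∩ cyl x n)) :
    ∀ᵐ x ∂μ, (∃ᶠ n in atTop, Q n x) → x ∈ A := by
  have hint : Integrable (A.indicator (fun _ => (1 : ℝ))) μ :=
    (integrable_const 1).indicator hA
  have hm : StronglyMeasurable[⨆ n, (Filt (V := V)) n] (A.indicator (fun _ => (1 : ℝ))) := by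
    rw [filt_sup]
    exact stronglyMeasurable_const.indicator hA
  have h1 := hint.tendsto_ae_condExp hm
  have h2 : ∀ᵐ x ∂μ, ∀ n, μ (cyl x n) ≠ 0 := ae_all_iff.2 fun n => ae_cyl_pos μ n
  filter_upwards [h1, h2] with x hx hpos hQ
  by_contra hxA
  rw [Set.indicator_of_notMem hxA] at hx
  have h3 : ∀ᶠ n in atTop, (μ[A.indicator (fun _ => (1 : ℝ)) | Filt n]) x < δ :=
    hx.eventually (gt_mem_nhds hδ)
  obtain ⟨n, hn1, hn2⟩ := (hQ.and_eventually h3).exists
  have h4 := h n x (hpos n) hn1
  have h5 : ∫ w in cyl x n, (μ[A.indicator (fun _ => (1 : ℝ)) | Filt n]) w ∂μ =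
      ∫ w in cyl x n, A.indicator (fun _ => (1 : ℝ)) w ∂μ :=
    setIntegral_condExp (Filt.le n) hint (measurableSet_filt_cyl x n)
  have h6 : ∫ w in cyl x n, (μ[A.indicator (fun _ => (1 : ℝ)) | Filt n]) w ∂μ =
      μ.real (cyl x n) * (μ[A.indicator (fun _ => (1 : ℝ)) | Filt n]) x := by
    rw [setIntegral_congr_fun (g := fun _ => (μ[A.indicator (fun _ => (1 : ℝ)) | Filt n]) x)
      (measurableSet_cyl x n)]
    · rw [setIntegral_const, smul_eq_mul]
    · intro w hw
      exact const_on_cyl (stronglyMeasurable_condExp.measurable) hw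
  have h7 : ∫ w in cyl x n, A.indicator (fun _ => (1 : ℝ)) w ∂μ = μ.real (A ∩ cyl x n) := by
    rw [setIntegral_indicator hA, setIntegral_const, smul_eq_mul, mul_one, Set.inter_comm]
  rw [h6, h7] at h5
  have h8 : 0 < μ.real (cyl x n) := by
    rw [measureReal_def, ENNReal.toReal_pos_iff]
    exact ⟨pos_iff_ne_zero.2 (hpos n), measure_lt_top _ _⟩
  have h9 : μ.real (cyl x n) * (μ[A.indicator (fun _ => (1 : ℝ)) | Filt n]) x <
      μ.real (cyl x n) * δ := mul_lt_mul_of_pos_left hn2 h8
  linarith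

end

end Pool.Agent.P8H96.ER
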