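import Pool.Agent.Results.MP_856411_pr.NotTrapped
import Pool.Agent.P8H96.ER.Levy

/-!
The polynomially reinforced directed walk on path space: splitting according to the next step, and
a lower bound for the probability that all steps from some time on are of a certain kind.
-/

set_option autoImplicit false
set_option linter.unusedSectionVars false

namespace Pool.Agent.P8H96.ER

open MeasureTheory Finset Filter Topology
open scoped ENNReal
open Pool.Agent.Results.MP_856411_pr.NotTrapped

/-- Change of the position at time `n + 1`. -/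
def upd {V : Type*} (x : ℕ → V) (n : ℕ) (y : V) : ℕ → V := fun k => if k = n + 1 then y else x k

section

variable {V : Type*}

theorem upd_le {x : ℕ → V} {n k : ℕ} {y : V} (h : k ≤ n) : upd x n y k = x k := by
  unfold upd; rw [if_neg (by omega)]

theorem upd_succ (x : ℕ → V) (n : ℕ) (y : V) : upd x n y (n + 1) = y := by
  unfold upd; rw [if_pos rfl]

theorem cyl_upd (x : ℕ → V) (n : ℕ) (y : V) :
    cyl (upd x n y) (n + 1) = cyl x n ∩ {w | w (n + 1) = y} := by
  ext w
  simp only [cyl, Set.mem_ofPred_eq, Set.mem_inter_iff]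
  constructor
  · intro h
    refine ⟨fun i hi => ?_, ?_⟩
    · rw [h i (by omega), upd_le hi]
    · rw [h (n + 1) le_rfl, upd_succ]
  · rintro ⟨h1, h2⟩ i hi
    rcases Nat.lt_or_ge i (n + 1) with h | h
    · rw [upd_le (by omega)]; exact h1 i (by omega)
    · have : i = n + 1 := by omega
      rw [this, upd_succ]; exact h2

/-- The law of the walk on path space. -/
structure Can (G : SimpleGraph V) [G.LocallyFinite] (γ : ℝ) (v : V)
    [MeasurableSpace V] (μ : Measure (ℕ → V)) : Prop where
  prob : IsProbabilityMeasure μ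
  start : ∀ᵐ x ∂μ, x 0 = v
  step : ∀ (n : ℕ) (x : ℕ → V) (y : V), μ (cyl x n ∩ {w | w (n + 1) = y}) =
    μ (cyl x n) * ENNReal.ofReal (stepProb G γ x n y)

variable [Countable V] [mV : MeasurableSpace V] [DiscreteMeasurableSpace V]
variable {G : SimpleGraph V} [G.LocallyFinite] {γ : ℝ} {v : V} {μ : Measure (ℕ → V)}

/-- A property of the path up to time `m` is measurable. -/
theorem measurableSet_local (m : ℕ) {A : Set (ℕ → V)}
    (h : ∀ x w, w ∈ cyl x m → x ∈ A → w ∈ A) : MeasurableSet A := by
  have : A = hist m ⁻¹' (hist m '' A) := by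
    ext w
    constructor
    · intro hw; exact ⟨w, hw, rfl⟩
    · rintro ⟨x, hx, hxw⟩
      exact h x w (hist_eq_iff.1 hxw.symm) hx
  rw [this]
  exact measurable_hist m trivial

theorem Can.real_step (h : Can G γ v μ) (x : ℕ → V) (n : ℕ) (y : V) :
    μ.real (cyl (upd x n y) (n + 1)) = μ.real (cyl x n) * stepProb G γ x n y := by
  have := h.prob
  rw [cyl_upd, measureReal_def, h.step, ENNReal.toReal_mul,
    ENNReal.toReal_ofReal (stepProb_nonneg G γ x n y)]
  rfl

theorem Can.ae_split (h : Can G γ v μ) (x : ℕ → V) (n : ℕ) :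
    (cyl x n : Set (ℕ → V)) =ᵐ[μ]
      (⋃ y ∈ G.neighborFinset (x n), cyl (upd x n y) (n + 1) : Set (ℕ → V)) := by
  have h0 : μ (⋃ y ∈ {y | y ∉ G.neighborFinset (x n)}, (cyl x n ∩ {w | w (n + 1) = y})) = 0 := by
    refine (measure_biUnion_null_iff (Set.to_countable _)).2 fun y hy => ?_
    rw [h.step]
    have : stepProb G γ x n y = 0 := by
      unfold stepProb
      rw [if_neg]
      simpa using hy
    rw [this, ENNReal.ofReal_zero, mul_zero]
  have hsub : (⋃ y ∈ G.neighborFinset (x n), cyl (upd x n y) (n + 1) : Set (ℕ → V)) ⊆ cyl x n := by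
    intro w hw
    simp only [Set.mem_iUnion] at hw
    obtain ⟨y, _, hy⟩ := hw
    rw [cyl_upd] at hy
    exact hy.1
  refine (ae_eq_of_subset_of_measure_ge hsub ?_ ?_ ?_).symm
  · calc μ (cyl x n) ≤ μ ((⋃ y ∈ G.neighborFinset (x n), cyl (upd x n y) (n + 1) : Set (ℕ → V)) ∪
          ⋃ y ∈ {y | y ∉ G.neighborFinset (x n)}, (cyl x n ∩ {w | w (n + 1) = y})) := by
          refine measure_mono fun w hw => ?_
          by_cases hy : w (n + 1) ∈ G.neighborFinset (x n)
          · left
            simp only [Set.mem_iUnion]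
            exact ⟨w (n + 1), hy, by rw [cyl_upd]; exact ⟨hw, rfl⟩⟩
          · right
            exact Set.mem_biUnion (x := w (n + 1)) hy ⟨hw, rfl⟩
      _ ≤ _ := (measure_union_le _ _).trans (by rw [h0, add_zero])
  · exact (Finset.measurableSet_biUnion _ fun y _ => measurableSet_cyl _ _).nullMeasurableSet
  · have := h.prob
    exact measure_ne_top _ _

theorem cyl_upd_disjoint (x : ℕ → V) (n : ℕ) (s : Set V) :
    s.Pairwise (Function.onFun Disjoint (fun y => cyl (upd x n y) (n + 1))) := by
  intro y _ z _ hyz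
  rw [Function.onFun, Set.disjoint_left]
  intro w hw hw'
  rw [cyl_upd] at hw hw'
  exact hyz (hw.2.symm.trans hw'.2)

theorem Can.integral_split (h : Can G γ v μ) {E : Type*} [NormedAddCommGroup E] [NormedSpace ℝ E]
    (x : ℕ → V) (n : ℕ) {f : (ℕ → V) → E} (hf : Integrable f μ) :
    ∫ w in cyl x n, f w ∂μ =
      ∑ y ∈ G.neighborFinset (x n), ∫ w in cyl (upd x n y) (n + 1), f w ∂μ := by
  rw [setIntegral_congr_set (h.ae_split x n), integral_biUnion_finset _
    (fun y _ => measurableSet_cyl _ _) (cyl_upd_disjoint x n _) (fun y _ => hf.integrableOn)]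

theorem Can.real_split (h : Can G γ v μ) (x : ℕ → V) (n : ℕ) {A : Set (ℕ → V)}
    (hA : MeasurableSet A) :
    μ.real (A ∩ cyl x n) =
      ∑ y ∈ G.neighborFinset (x n), μ.real (A ∩ cyl (upd x n y) (n + 1)) := by
  have hp := h.prob
  have h1 := h.integral_split x n (f := A.indicator (fun _ => (1 : ℝ)))
    ((integrable_const 1).indicator hA)
  have h2 : ∀ (B : Set (ℕ → V)), MeasurableSet B →
      ∫ w in B, A.indicator (fun _ => (1 : ℝ)) w ∂μ = μ.real (A ∩ B) := by
    intro B hB
    rw [setIntegral_indicator hA, setIntegral_const, smul_eq_mul, mul_one, Set.inter_comm]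
  rw [h2 _ (measurableSet_cyl _ _)] at h1
  rw [h1]
  exact sum_congr rfl fun y _ => h2 _ (measurableSet_cyl _ _)

/-- A kind of steps: `S k w y` says that the step at time `k` of the path `w` to `y` is of this
kind; it depends on the path up to time `k` only. -/
def Loc (S : ℕ → (ℕ → V) → V → Prop) : Prop :=
  ∀ k x w y, w ∈ cyl x k → (S k w y ↔ S k x y)

theorem measurableSet_step {S : ℕ → (ℕ → V) → V → Prop} (hS : Loc S) (k : ℕ) :
    MeasurableSet {w : ℕ → V | S k w (w (k + 1))} := by
  refine measurableSet_local (k + 1) fun x w hw hx => ?_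
  have h1 : w ∈ cyl x k := fun i hi => hw i (by omega)
  have h2 : w (k + 1) = x (k + 1) := hw (k + 1) le_rfl
  show S k w (w (k + 1))
  rw [h2, hS k x w _ h1]
  exact hx

/-- All steps from time `n` on are of the kind `S`. -/
def Ev (S : ℕ → (ℕ → V) → V → Prop) (n : ℕ) : Set (ℕ → V) :=
  {w | ∀ k, n ≤ k → S k w (w (k + 1))}

theorem measurableSet_Ev {S : ℕ → (ℕ → V) → V → Prop} (hS : Loc S) (n : ℕ) :
    MeasurableSet (Ev S n) := by
  have : Ev S n = ⋂ k ∈ {k | n ≤ k}, {w : ℕ → V | S k w (w (k + 1))} := by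
    ext w; simp [Ev]
  rw [this]
  exact MeasurableSet.biInter (Set.to_countable _) fun k _ => measurableSet_step hS k

/-- The `N` steps from time `n` on are of the kind `S`. -/
def EvN (S : ℕ → (ℕ → V) → V → Prop) (n N : ℕ) : Set (ℕ → V) :=
  {w | ∀ k, n ≤ k → k < n + N → S k w (w (k + 1))}

theorem measurableSet_EvN {S : ℕ → (ℕ → V) → V → Prop} (hS : Loc S) (n N : ℕ) :
    MeasurableSet (EvN S n N) := by
  have : EvN S n N = ⋂ k ∈ {k | n ≤ k ∧ k < n + N}, {w : ℕ → V | S k w (w (k + 1))} := by
    ext w; simp [EvN]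
  rw [this]
  exact MeasurableSet.biInter (Set.to_countable _) fun k _ => measurableSet_step hS k

open Classical in
theorem Can.stay_N (h : Can G γ v μ) {S : ℕ → (ℕ → V) → V → Prop} (hS : Loc S)
    {Φ : ℕ → (ℕ → V) → ℝ} {I : ℕ → (ℕ → V) → Prop}
    (hΦ1 : ∀ n x, Φ n x ≤ 1)
    (hstep : ∀ n x, I n x → Φ n x ≤ ∑ y ∈ (G.neighborFinset (x n)).filter (fun y => S n x y),
      stepProb G γ x n y * Φ (n + 1) (upd x n y))
    (hI : ∀ n x y, I n x → G.Adj (x n) y → S n x y → I (n + 1) (upd x n y)) :
    ∀ N n x, I n x → Φ n x * μ.real (cyl x n) ≤ μ.real (EvN S n N ∩ cyl x n) := by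
  intro N
  have hp := h.prob
  induction N with
  | zero =>
    intro n x _
    have : EvN S n 0 = Set.univ := by
      ext w; simp only [EvN, Set.mem_ofPred_eq, Set.mem_univ, iff_true]
      intro k h1 h2; omega
    rw [this, Set.univ_inter]
    exact mul_le_of_le_one_left measureReal_nonneg (hΦ1 n x)
  | succ N ih =>
    intro n x hx
    rw [h.real_split x n (measurableSet_EvN hS n (N + 1))]
    calc Φ n x * μ.real (cyl x n)
        ≤ (∑ y ∈ (G.neighborFinset (x n)).filter (fun y => S n x y),
            stepProb G γ x n y * Φ (n + 1) (upd x n y)) * μ.real (cyl x n) :=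
          mul_le_mul_of_nonneg_right (hstep n x hx) measureReal_nonneg
      _ = ∑ y ∈ (G.neighborFinset (x n)).filter (fun y => S n x y),
            Φ (n + 1) (upd x n y) * μ.real (cyl (upd x n y) (n + 1)) := by
          rw [sum_mul]
          refine sum_congr rfl fun y _ => ?_
          rw [h.real_step]; ring
      _ ≤ ∑ y ∈ (G.neighborFinset (x n)).filter (fun y => S n x y),
            μ.real (EvN S n (N + 1) ∩ cyl (upd x n y) (n + 1)) := by
          refine sum_le_sum fun y hy => ?_
          rw [mem_filter, SimpleGraph.mem_neighborFinset] at hy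
          refine (ih (n + 1) (upd x n y) (hI n x y hx hy.1 hy.2)).trans ?_
          refine measureReal_mono (fun w hw => ⟨fun k h1 h2 => ?_, hw.2⟩) (measure_ne_top _ _)
          rcases Nat.lt_or_ge n k with h3 | h3
          · exact hw.1 k (by omega) (by omega)
          · have : k = n := by omega
            subst this
            have h4 := hw.2
            rw [cyl_upd] at h4
            have h5 : w (k + 1) = y := h4.2
            rw [h5, hS k x w y h4.1]
            exact hy.2
      _ ≤ _ := sum_le_sum_of_subset_of_nonneg (filter_subset _ _) fun _ _ _ => measureReal_nonneg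

open Classical in
/-- **Lower bound for the probability that all steps are of the kind `S`.** -/
theorem Can.stay (h : Can G γ v μ) {S : ℕ → (ℕ → V) → V → Prop} (hS : Loc S)
    {Φ : ℕ → (ℕ → V) → ℝ} {I : ℕ → (ℕ → V) → Prop}
    (hΦ1 : ∀ n x, Φ n x ≤ 1)
    (hstep : ∀ n x, I n x → Φ n x ≤ ∑ y ∈ (G.neighborFinset (x n)).filter (fun y => S n x y),
      stepProb G γ x n y * Φ (n + 1) (upd x n y))
    (hI : ∀ n x y, I n x → G.Adj (x n) y → S n x y → I (n + 1) (upd x n y))
    (n : ℕ) (x : ℕ → V) (hx : I n x) :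
    Φ n x * μ.real (cyl x n) ≤ μ.real (Ev S n ∩ cyl x n) := by
  have hp := h.prob
  have h1 := fun N => h.stay_N hS hΦ1 hstep hI N n x hx
  have h2 : Tendsto (fun N => μ (EvN S n N ∩ cyl x n)) atTop (𝓝 (μ (⋂ N, EvN S n N ∩ cyl x n))) := by
    refine tendsto_measure_iInter_atTop (fun N => ((measurableSet_EvN hS n N).inter
      (measurableSet_cyl x n)).nullMeasurableSet) ?_ ⟨0, measure_ne_top _ _⟩
    intro N M hNM w hw
    exact ⟨fun k h3 h4 => hw.1 k h3 (by omega), hw.2⟩
  have h3 : (⋂ N, EvN S n N ∩ cyl x n) = Ev S n ∩ cyl x n := by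
    ext w
    simp only [Set.mem_iInter, Set.mem_inter_iff]
    constructor
    · intro hw
      exact ⟨fun k hk => (hw (k + 1 - n)).1 k hk (by omega), (hw 0).2⟩
    · intro hw N
      exact ⟨fun k hk _ => hw.1 k hk, hw.2⟩
  rw [h3] at h2
  have h4 : Tendsto (fun N => μ.real (EvN S n N ∩ cyl x n)) atTop (𝓝 (μ.real (Ev S n ∩ cyl x n))) :=
    (ENNReal.tendsto_toReal (measure_ne_top _ _)).comp h2
  exact ge_of_tendsto' h4 h1

end

end Pool.Agent.P8H96.ER
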