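import Pool.Agent.P8H96.ER.Stay

/-!
Recurrence: infinitely often there is positive outflow, and almost surely all steps are forward
from some time on, if the range is finite.
-/

set_option autoImplicit false
set_option linter.unusedSectionVars false

namespace Pool.Agent.P8H96.ER

open MeasureTheory Finset Filter Topology
open scoped ENNReal
open Pool.Agent.Results.MP_856411_pr.NotTrapped

variable {V : Type*} {G : SimpleGraph V} [G.LocallyFinite]
variable [Countable V] [mV : MeasurableSpace V] [DiscreteMeasurableSpace V]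
variable {γ : ℝ} {v : V} {μ : Measure (ℕ → V)}

theorem upd_self (x : ℕ → V) (n : ℕ) : upd x n (x (n + 1)) = x := by
  funext k
  unfold upd
  split_ifs with h
  · rw [h]
  · rfl

theorem cyl_anti {x : ℕ → V} {n m : ℕ} (h : n ≤ m) : cyl x m ⊆ cyl x n :=
  fun _ hw i hi => hw i (hi.trans h)

theorem Can.isP_of_pos (h : Can G γ v μ) {x : ℕ → V} {n : ℕ} (hx : μ (cyl x n) ≠ 0) :
    IsP G x n := by
  intro i hi
  have h1 : μ (cyl x (i + 1)) ≠ 0 := fun h0 => hx (measure_mono_null (cyl_anti (by omega)) h0)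
  rw [← upd_self x i, cyl_upd, h.step] at h1
  by_contra hcon
  apply h1
  have : stepProb G γ x i (x (i + 1)) = 0 := by
    unfold stepProb
    rw [if_neg hcon]
  rw [this, ENNReal.ofReal_zero, mul_zero]

theorem Can.ae_isP (h : Can G γ v μ) : ∀ᵐ x ∂μ, ∀ n, IsP G x n := by
  rw [ae_all_iff]
  intro n
  filter_upwards [ae_cyl_pos μ n] with x hx using h.isP_of_pos hx

/-- Following a path along vertices without outflow. -/
theorem Can.follow (h : Can G γ v μ) {D : ℕ} (hD1 : 1 ≤ D) (x : ℕ → V) (n R : ℕ)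
    (hx : IsP G x (n + R)) (h0 : ∀ i < R, out G x (n + i) (x (n + i)) = 0)
    (hD : ∀ i < R, G.degree (x (n + i)) ≤ D) :
    (1 / (D : ℝ)) ^ R * μ.real (cyl x n) ≤ μ.real (cyl x (n + R)) := by
  induction R with
  | zero => simp
  | succ R ih =>
    have h1 := ih (fun i hi => hx i (by omega)) (fun i hi => h0 i (by omega))
      (fun i hi => hD i (by omega))
    have hadj : G.Adj (x (n + R)) (x (n + R + 1)) := hx (n + R) (by omega)
    have h2 := h.real_step x (n + R) (x (n + R + 1))
    rw [upd_self, stepProb_of_out_zero G γ (fun i hi => hx i (by omega)) (h0 R (by omega)) hadj]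
      at h2
    rw [← add_assoc, h2, pow_succ]
    have hdeg : 0 < G.degree (x (n + R)) := (G.degree_pos_iff_exists_adj _).2 ⟨_, hadj⟩
    have hdeg' : (0 : ℝ) < G.degree (x (n + R)) := by exact_mod_cast hdeg
    have hle : (G.degree (x (n + R)) : ℝ) ≤ D := by exact_mod_cast hD R (by omega)
    calc (1 / (D : ℝ)) ^ R * (1 / D) * μ.real (cyl x n)
        = (1 / (D : ℝ)) ^ R * μ.real (cyl x n) * (1 / D) := by ring
      _ ≤ μ.real (cyl x (n + R)) * (1 / D) := mul_le_mul_of_nonneg_right h1 (by positivity)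
      _ ≤ _ := mul_le_mul_of_nonneg_left (one_div_le_one_div_of_le hdeg' hle) measureReal_nonneg

/-- Positive outflow at the present position at some time `m ≥ n₀`. -/
def Pos (G : SimpleGraph V) [G.LocallyFinite] (n₀ : ℕ) : Set (ℕ → V) :=
  {w | ∃ m, n₀ ≤ m ∧ 1 ≤ out G w m (w m)}

theorem measurableSet_Pos (n₀ : ℕ) : MeasurableSet (Pos G n₀) := by
  have : Pos G n₀ = ⋃ m ∈ {m | n₀ ≤ m}, {w : ℕ → V | 1 ≤ out G w m (w m)} := by
    ext w; simp [Pos]
  rw [this]
  refine MeasurableSet.biUnion (Set.to_countable _) fun m _ => measurableSet_local m ?_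
  intro x w hw hx
  show 1 ≤ out G w m (w m)
  rw [out_congr G hw, hw m le_rfl]
  exact hx

theorem Can.reach (h : Can G γ v μ) {D : ℕ} (hD1 : 1 ≤ D) (x : ℕ → V) {n₀ n R : ℕ} (hn : n₀ ≤ n)
    (hx : IsP G x (n + R)) (hD : ∀ i < R, G.degree (x (n + i)) ≤ D)
    (h1 : ∃ i ≤ R, 1 ≤ out G x (n + i) (x (n + i))) :
    (1 / (D : ℝ)) ^ R * μ.real (cyl x n) ≤ μ.real (Pos G n₀ ∩ cyl x n) := by
  classical
  have hp := h.prob
  have h2 : ∃ i, i ≤ R ∧ 1 ≤ out G x (n + i) (x (n + i)) := h1
  obtain ⟨hi1, hi2⟩ := Nat.find_spec h2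
  set i := Nat.find h2 with hi
  have h3 := h.follow hD1 x n i (fun j hj => hx j (by omega)) (fun j hj => by
    have := Nat.find_min h2 hj
    push Not at this
    have := this (by omega)
    omega) (fun j hj => hD j (by omega))
  have hD0 : (1 : ℝ) ≤ D := by exact_mod_cast hD1
  have h4 : (1 / (D : ℝ)) ^ R ≤ (1 / (D : ℝ)) ^ i := by
    refine pow_le_pow_of_le_one (by positivity) ?_ hi1
    rw [div_le_one (by linarith)]
    exact hD0
  refine (mul_le_mul_of_nonneg_right h4 measureReal_nonneg).trans (h3.trans ?_)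
  refine measureReal_mono ?_ (measure_ne_top _ _)
  intro w hw
  refine ⟨⟨n + i, by omega, ?_⟩, cyl_anti (by omega) hw⟩
  rw [out_congr G hw, hw _ le_rfl]
  exact hi2

/-- `G` has a circuit. -/
def Circ (G : SimpleGraph V) : Prop :=
  ∃ m ≥ 3, ∃ u : ZMod m → V, Function.Injective u ∧ ∀ i, G.Adj (u i) (u (i + 1))

/-- Concatenation of two paths. -/
def cat (x : ℕ → V) (n : ℕ) (y : ℕ → V) : ℕ → V := fun k => if k < n then x k else y (k - n)

theorem cat_add (x : ℕ → V) (n : ℕ) (y : ℕ → V) (i : ℕ) : cat x n y (n + i) = y i := by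
  unfold cat
  rw [if_neg (by omega), Nat.add_sub_cancel_left]

theorem cat_lt {x : ℕ → V} {n : ℕ} {y : ℕ → V} {i : ℕ} (h : i < n) : cat x n y i = x i := by
  unfold cat
  rw [if_pos h]

theorem cat_isP {x : ℕ → V} {n : ℕ} {y : ℕ → V} (hx : IsP G x n) (hxy : y 0 = x n)
    (hy : ∀ i, G.Adj (y i) (y (i + 1))) (m : ℕ) : IsP G (cat x n y) m := by
  intro i _
  rcases Nat.lt_or_ge i n with h | h
  · rcases Nat.lt_or_ge (i + 1) n with h1 | h1
    · rw [cat_lt h, cat_lt h1]; exact hx i h
    · have : n = i + 1 := by omega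
      subst this
      rw [cat_lt h]
      have := cat_add x (i + 1) y 0
      rw [add_zero] at this
      rw [this, hxy]
      exact hx i h
  · obtain ⟨j, rfl⟩ := Nat.exists_eq_add_of_le h
    rw [add_assoc, cat_add, cat_add]
    exact hy j

/-- A path from `a` that leads to positive outflow, whatever the history. -/
theorem exists_lead (hG : G.Connected) (hc : Circ G) (a : V) :
    ∃ (y : ℕ → V) (R : ℕ), y 0 = a ∧ (∀ i, G.Adj (y i) (y (i + 1))) ∧
      ∀ (x : ℕ → V) (n : ℕ), IsP G x n → x n = a →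
        ∃ i ≤ R, 1 ≤ out G (cat x n y) (n + i) (cat x n y (n + i)) := by
  classical
  obtain ⟨m, hm, u, hinj, hu⟩ := hc
  have : NeZero m := ⟨by omega⟩
  obtain ⟨p⟩ := hG.preconnected a (u 0)
  set y : ℕ → V := cat p.getVert p.length (fun j => u (j : ZMod m)) with hy
  have hy0 : y 0 = a := by
    rcases Nat.eq_zero_or_pos p.length with h | h
    · have h1 : y (p.length + 0) = u ((0 : ℕ) : ZMod m) := cat_add _ _ _ 0
      rw [h, add_zero] at h1
      rw [h1, Nat.cast_zero]
      have h2 := p.getVert_length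
      rw [h, p.getVert_zero] at h2
      exact h2.symm
    · rw [hy, cat_lt h, p.getVert_zero]
  have hyadj : ∀ i, G.Adj (y i) (y (i + 1)) := by
    intro i
    have hP : IsP G p.getVert p.length := fun i hi => p.adj_getVert_succ hi
    refine cat_isP (y := fun j : ℕ => u (j : ZMod m)) hP ?_ ?_ (i + 1) i (by omega)
    · rw [p.getVert_length, Nat.cast_zero]
    · intro i
      push_cast
      exact hu _
  have hyu : ∀ j : ℕ, y (p.length + j) = u (j : ZMod m) := fun j => cat_add _ _ _ j
  refine ⟨y, p.length + (m + m), hy0, hyadj, fun x n hx hxa => ?_⟩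
  by_contra hcon
  push Not at hcon
  set z := cat x n y with hz
  have hzP : ∀ k, IsP G z k := cat_isP hx (by rw [hy0, hxa]) hyadj
  have hzu : ∀ j : ℕ, z (n + p.length + j) = u (j : ZMod m) := by
    intro j
    rw [add_assoc, hz, cat_add, hyu]
  have h2 : ((2 : ℕ) : ZMod m) ≠ 0 := by
    intro h
    rw [ZMod.natCast_eq_zero_iff] at h
    have := Nat.le_of_dvd (by norm_num) h
    omega
  have hmono : ∀ j : ℕ, crossing z (n + p.length + (j + 1)) (u 0) (u 1) =
      crossing z (n + p.length + j) (u 0) (u 1) + (if (j : ZMod m) = 0 then 1 else 0) := by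
    intro j
    rw [← add_assoc, crossing_succ, add_assoc (n + p.length) j 1, hzu, hzu]
    congr 1
    have e1 : (u (j : ZMod m) = u 0 ∧ u ((j + 1 : ℕ) : ZMod m) = u 1) ↔ (j : ZMod m) = 0 := by
      constructor
      · intro h; exact hinj h.1
      · intro h
        refine ⟨by rw [h], ?_⟩
        push_cast
        rw [h, zero_add]
    have e2 : ¬ (u (j : ZMod m) = u 1 ∧ u ((j + 1 : ℕ) : ZMod m) = u 0) := by
      rintro ⟨h3, h4⟩
      have h5 := hinj h3
      have h6 := hinj h4
      push_cast at h6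
      rw [h5] at h6
      apply h2
      push_cast
      rw [← h6]
      norm_num
    rw [if_neg e2, sub_zero]
    simp only [e1]
  have hsum : ∀ j : ℕ, crossing z (n + p.length + j) (u 0) (u 1) =
      crossing z (n + p.length) (u 0) (u 1) +
        ∑ k ∈ range j, (if ((k : ℕ) : ZMod m) = 0 then (1 : ℤ) else 0) := by
    intro j
    induction j with
    | zero => simp
    | succ j ih => rw [hmono, ih, sum_range_succ, add_assoc]
  have hge : (2 : ℤ) ≤ ∑ k ∈ range (m + m), (if ((k : ℕ) : ZMod m) = 0 then (1 : ℤ) else 0) := by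
    have h3 : ({0, m} : Finset ℕ) ⊆ range (m + m) := by
      intro k hk
      simp only [mem_insert, mem_singleton] at hk
      rw [mem_range]
      omega
    refine le_trans (le_of_eq ?_) (sum_le_sum_of_subset_of_nonneg h3 fun k _ _ => by
      split_ifs <;> norm_num)
    rw [sum_pair (by omega), Nat.cast_zero, ZMod.natCast_self, if_pos rfl]
    norm_num
  have h3 : out G z (n + p.length) (z (n + p.length)) = 0 := by
    have := hcon p.length (by omega)
    omega
  have hz1 : z (n + p.length) = u 0 := by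
    have := hzu 0
    rw [add_zero, Nat.cast_zero] at this
    exact this
  have hadj0 : G.Adj (u 0) (u 1) := by
    have := hu 0
    rw [zero_add] at this
    exact this
  have h4 := neg_one_le G (hzP _) h3 (b := u 1) (by rw [hz1]; exact hadj0)
  rw [hz1] at h4
  have h5 : out G z (n + (p.length + (m + m))) (z (n + (p.length + (m + m)))) = 0 := by
    have := hcon (p.length + (m + m)) le_rfl
    omega
  rw [← add_assoc] at h5
  have h6 : z (n + p.length + (m + m)) = u 0 := by
    rw [hzu]; push_cast; rw [ZMod.natCast_self]; simp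
  rw [h6] at h5
  have h7 := out_eq_zero G h5 hadj0
  rw [hsum] at h7
  omega

/-- If a vertex is visited infinitely often, then there is positive outflow infinitely often. -/
theorem Can.out_io (h : Can G γ v μ) (hG : G.Connected) (hc : Circ G) :
    ∀ᵐ x ∂μ, ∀ a, (∃ᶠ n in atTop, x n = a) → ∃ᶠ n in atTop, 1 ≤ out G x n (x n) := by
  rw [ae_all_iff]
  intro a
  have hp := h.prob
  obtain ⟨y, R, hy0, hyadj, hlead⟩ := exists_lead hG hc a
  obtain ⟨D, hD1, hD⟩ : ∃ D : ℕ, 1 ≤ D ∧ ∀ i < R, G.degree (y i) ≤ D := by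
    refine ⟨∑ i ∈ range R, G.degree (y i) + 1, by omega, fun i hi => ?_⟩
    have := single_le_sum (f := fun i => G.degree (y i)) (fun _ _ => Nat.zero_le _)
      (mem_range.2 hi)
    omega
  have h1 : ∀ n₀ : ℕ, ∀ᵐ x ∂μ, (∃ᶠ n in atTop, x n = a ∧ n₀ ≤ n) → x ∈ Pos G n₀ := by
    intro n₀
    refine levy μ (measurableSet_Pos n₀) (δ := (1 / (D : ℝ)) ^ R) (by positivity) ?_
    rintro n x hpos ⟨hxa, hn⟩
    have hx := h.isP_of_pos hpos
    have hcyl : cyl (cat x n y) n = cyl x n := by
      apply cyl_congr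
      intro i hi
      rcases Nat.lt_or_ge i n with h1 | h1
      · exact cat_lt h1
      · have h2 : i = n := by omega
        subst h2
        have := cat_add x i y 0
        rw [add_zero] at this
        rw [this, hy0, hxa]
    rw [← hcyl]
    refine h.reach hD1 (cat x n y) hn (cat_isP hx (by rw [hy0, hxa]) hyadj _) (fun i hi => ?_)
      (hlead x n hx hxa)
    rw [cat_add]
    exact hD i hi
  rw [← ae_all_iff] at h1
  filter_upwards [h1] with x hx hfreq
  rw [frequently_atTop]
  intro n₀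
  exact hx n₀ (hfreq.and_eventually (eventually_ge_atTop n₀))

/-- All steps are forward from some time on. -/
def AllFw (V : Type*) : Set (ℕ → V) := ⋃ m, Ev (fun k w y => Fw k w y) m

theorem measurableSet_AllFw : MeasurableSet (AllFw V) :=
  MeasurableSet.iUnion fun m => measurableSet_Ev loc_Fw m

/-- On paths within a finite set with infinitely many positive outflows. -/
theorem Can.fin_of_io (h : Can G γ v μ) {A : Finset V} {κ : ℕ → ℝ} (hκ : Summable κ)
    (h0 : ∀ i, 0 ≤ κ i) (hgood : Good G γ A κ) :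
    ∀ᵐ x ∂μ, (∀ n, x n ∈ A) → (∃ᶠ n in atTop, 1 ≤ out G x n (x n)) → x ∈ AllFw V := by
  have hp := h.prob
  have h1 : ∀ᵐ x ∂μ, (∃ᶠ n in atTop, Inv G A n x) → x ∈ AllFw V := by
    refine levy μ measurableSet_AllFw (δ := Real.exp (-(#A * tl κ 0))) (Real.exp_pos _) ?_
    intro n x _ hI
    refine (h.forward hκ h0 hgood hI).trans ?_
    exact measureReal_mono (Set.inter_subset_inter_left _ (Set.subset_iUnion _ n))
      (measure_ne_top _ _)
  filter_upwards [h1, h.ae_isP] with x hx hP hA hio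
  refine hx (hio.mono fun n hn => ⟨hP n, hA n, hn, fun a _ b _ hc => ?_⟩)
  obtain ⟨k, _, rfl⟩ := visited_of_crossing hc
  exact hA k

/-- On paths with finite range. -/
theorem Can.fin_of_finite (h : Can G γ v μ) (hG : G.Connected) (hc : Circ G)
    (hgood : ∀ A : Finset V, ∃ κ : ℕ → ℝ, Summable κ ∧ (∀ i, 0 ≤ κ i) ∧ Good G γ A κ) :
    ∀ᵐ x ∂μ, (Set.range x).Finite → x ∈ AllFw V := by
  have h1 : ∀ᵐ x ∂μ, ∀ A : Finset V, (∀ n, x n ∈ A) →
      (∃ᶠ n in atTop, 1 ≤ out G x n (x n)) → x ∈ AllFw V := by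
    rw [ae_all_iff]
    intro A
    obtain ⟨κ, hκ, h0, hg⟩ := hgood A
    exact h.fin_of_io hκ h0 hg
  filter_upwards [h1, h.out_io hG hc] with x hx hio hfin
  refine hx hfin.toFinset (fun n => by simp) ?_
  obtain ⟨a, -, ha⟩ : ∃ a ∈ Set.range x, ∃ᶠ n in atTop, x n = a := by
    by_contra hcon
    push Not at hcon
    have h2 : ∀ᶠ n in atTop, ∀ a ∈ Set.range x, x n ≠ a := by
      rw [Filter.eventually_all_finite hfin]
      intro a ha
      exact hcon a ha
    obtain ⟨n, hn⟩ := h2.exists
    exact hn (x n) ⟨n, rfl⟩ rfl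
  exact hio a ha

end Pool.Agent.P8H96.ER
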