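import Pool.Agent.P8H96.ER.Flow

/-!
The probability that all steps are forward is bounded from below.
-/

set_option autoImplicit false
set_option linter.unusedSectionVars false

namespace Pool.Agent.P8H96.ER

open MeasureTheory Finset Filter Topology
open scoped ENNReal
open Pool.Agent.Results.MP_856411_pr.NotTrapped

variable {V : Type*} (G : SimpleGraph V) [G.LocallyFinite]

open Classical in
/-- The probability of a forward step from a vertex of `A` with outflow `i ≥ 1` is at least
`exp (- κ i)`. -/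
def Good (γ : ℝ) (A : Finset V) (κ : ℕ → ℝ) : Prop :=
  ∀ (n : ℕ) (x : ℕ → V), IsP G x n → x n ∈ A → 1 ≤ out G x n (x n) →
    Real.exp (-κ (out G x n (x n))) ≤
      ∑ y ∈ (G.neighborFinset (x n)).filter (fun y => Fw n x y), stepProb G γ x n y

open Classical in
theorem exp_le_forward {γ : ℝ} {n : ℕ} {x : ℕ → V} {k : ℝ}
    (hs : 0 < ∑ y ∈ (G.neighborFinset (x n)).filter (fun y => Fw n x y),
      weight γ (crossing x n (x n) y))
    (h : ∑ y ∈ (G.neighborFinset (x n)).filter (fun y => ¬ Fw n x y),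
        weight γ (crossing x n (x n) y) ≤
      k * ∑ y ∈ (G.neighborFinset (x n)).filter (fun y => Fw n x y),
        weight γ (crossing x n (x n) y)) :
    Real.exp (-k) ≤
      ∑ y ∈ (G.neighborFinset (x n)).filter (fun y => Fw n x y), stepProb G γ x n y := by
  have h1 : ∑ y ∈ (G.neighborFinset (x n)).filter (fun y => Fw n x y), stepProb G γ x n y =
      (∑ y ∈ (G.neighborFinset (x n)).filter (fun y => Fw n x y),
        weight γ (crossing x n (x n) y)) /
      ∑ z ∈ G.neighborFinset (x n), weight γ (crossing x n (x n) z) := by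
    rw [sum_div]
    refine sum_congr rfl fun y hy => ?_
    unfold stepProb
    rw [if_pos (by simpa using (mem_filter.1 hy).1)]
  have h2 := sum_filter_add_sum_filter_not (G.neighborFinset (x n)) (fun y => Fw n x y)
    (fun z => weight γ (crossing x n (x n) z))
  rw [h1, ← h2]
  set s := ∑ y ∈ (G.neighborFinset (x n)).filter (fun y => Fw n x y),
        weight γ (crossing x n (x n) y) with hsdef
  set W := ∑ y ∈ (G.neighborFinset (x n)).filter (fun y => ¬ Fw n x y),
        weight γ (crossing x n (x n) y) with hWdef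
  have hW : 0 ≤ W := sum_nonneg fun _ _ => (weight_pos _ _).le
  rw [le_div_iff₀ (by linarith), Real.exp_neg, inv_mul_le_iff₀ (Real.exp_pos _)]
  have h3 : k + 1 ≤ Real.exp k := Real.add_one_le_exp k
  nlinarith

/-- If `γ > 1` and the degrees on `A` are at most `D`. -/
theorem good_of_one_lt {γ : ℝ} (hγ : 0 < γ) {A : Finset V} {D : ℕ}
    (hD : ∀ a ∈ A, G.degree a ≤ D) (hD1 : 1 ≤ D) :
    Good G γ A (fun i => (D : ℝ) ^ (1 + γ) * (i : ℝ) ^ (-γ)) := by
  classical
  intro n x hx hA hout
  set i := out G x n (x n) with hi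
  have hD0 : (0 : ℝ) < D := by exact_mod_cast hD1
  have hi0 : (0 : ℝ) < i := by exact_mod_cast hout
  obtain ⟨b, hb, hbi⟩ : ∃ b ∈ G.neighborFinset (x n), i ≤ D * (crossing x n (x n) b).toNat := by
    by_contra hcon
    push Not at hcon
    have hne : (G.neighborFinset (x n)).Nonempty := by
      obtain ⟨b, hb, _⟩ := (one_le_out G).1 hout
      exact ⟨b, by simpa using hb⟩
    have h1 : ∑ b ∈ G.neighborFinset (x n), D * (crossing x n (x n) b).toNat <
        ∑ b ∈ G.neighborFinset (x n), i := sum_lt_sum_of_nonempty hne hcon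
    rw [← mul_sum, sum_const, smul_eq_mul, SimpleGraph.card_neighborFinset_eq_degree] at h1
    have h2 : G.degree (x n) * i ≤ D * i := Nat.mul_le_mul_right _ (hD _ hA)
    have h3 : ∑ b ∈ G.neighborFinset (x n), (crossing x n (x n) b).toNat = i := rfl
    rw [h3] at h1
    omega
  have hbpos : 1 ≤ crossing x n (x n) b := by
    by_contra hcon
    have : (crossing x n (x n) b).toNat = 0 := by omega
    rw [this] at hbi
    omega
  have hbF : b ∈ (G.neighborFinset (x n)).filter (fun y => Fw n x y) :=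
    mem_filter.2 ⟨hb, hbpos⟩
  have hwb : ((i : ℝ) / D) ^ γ ≤ weight γ (crossing x n (x n) b) := by
    unfold weight
    rw [if_pos (by omega)]
    refine Real.rpow_le_rpow (by positivity) ?_ hγ.le
    rw [div_le_iff₀ hD0]
    have h1 : (i : ℝ) ≤ D * ((crossing x n (x n) b).toNat : ℝ) := by exact_mod_cast hbi
    have h2 : (((crossing x n (x n) b).toNat : ℤ) : ℝ) = (crossing x n (x n) b : ℝ) := by
      rw [Int.toNat_of_nonneg (by omega)]
    have h3 : ((crossing x n (x n) b).toNat : ℝ) = (crossing x n (x n) b : ℝ) := by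
      rw [← h2]; norm_cast
    rw [h3] at h1
    linarith
  have hs : ((i : ℝ) / D) ^ γ ≤ ∑ y ∈ (G.neighborFinset (x n)).filter (fun y => Fw n x y),
      weight γ (crossing x n (x n) y) :=
    hwb.trans (single_le_sum (f := fun y => weight γ (crossing x n (x n) y))
      (fun _ _ => (weight_pos _ _).le) hbF)
  have hpos : (0 : ℝ) < ((i : ℝ) / D) ^ γ := Real.rpow_pos_of_pos (by positivity) _
  refine exp_le_forward G (hpos.trans_le hs) ?_
  calc ∑ y ∈ (G.neighborFinset (x n)).filter (fun y => ¬ Fw n x y),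
        weight γ (crossing x n (x n) y)
      ≤ ∑ y ∈ (G.neighborFinset (x n)).filter (fun y => ¬ Fw n x y), 1 := by
        refine sum_le_sum fun y hy => weight_le_one hγ.le ?_
        have := (mem_filter.1 hy).2
        unfold Fw at this
        omega
    _ ≤ D := by
        rw [sum_const, nsmul_eq_mul, mul_one]
        have h1 : #((G.neighborFinset (x n)).filter (fun y => ¬ Fw n x y)) ≤ D := by
          refine (card_filter_le _ _).trans ?_
          rw [SimpleGraph.card_neighborFinset_eq_degree]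
          exact hD _ hA
        exact_mod_cast h1
    _ = (D : ℝ) ^ (1 + γ) * (i : ℝ) ^ (-γ) * ((i : ℝ) / D) ^ γ := by
        rw [Real.div_rpow hi0.le hD0.le, Real.rpow_neg hi0.le, Real.rpow_add hD0, Real.rpow_one]
        have h1 : (0 : ℝ) < (i : ℝ) ^ γ := Real.rpow_pos_of_pos hi0 _
        have h2 : (0 : ℝ) < (D : ℝ) ^ γ := Real.rpow_pos_of_pos hD0 _
        field_simp
    _ ≤ _ := mul_le_mul_of_nonneg_left hs (by positivity)

/-- If all degrees on `A` are two. -/
theorem good_of_degree_two {γ : ℝ} (hγ : 0 < γ) {A : Finset V}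
    (hD : ∀ a ∈ A, G.degree a = 2) :
    Good G γ A (fun i => (i : ℝ) ^ (-(2 * γ))) := by
  classical
  intro n x hx hA hout
  obtain ⟨b, hb, hb1⟩ := (one_le_out G).1 hout
  have hcons := conservation G hx (x n)
  rw [if_pos rfl] at hcons
  have hb' : b ∈ G.neighborFinset (x n) := by simpa using hb
  have hcard : #((G.neighborFinset (x n)).erase b) = 1 := by
    rw [card_erase_of_mem hb', SimpleGraph.card_neighborFinset_eq_degree, hD _ hA]
  obtain ⟨b', hb'eq⟩ := card_eq_one.1 hcard
  rw [← add_sum_erase _ _ hb', hb'eq, sum_singleton] at hcons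
  have hle : crossing x n (x n) b' ≤ -crossing x n (x n) b := by
    have : (if x 0 = x n then (1 : ℤ) else 0) ≤ 1 := by split_ifs <;> omega
    omega
  have hne : b' ≠ b := by
    have : b' ∈ (G.neighborFinset (x n)).erase b := by rw [hb'eq]; simp
    exact ne_of_mem_erase this
  have hall : G.neighborFinset (x n) = {b, b'} := by
    rw [← insert_erase hb', hb'eq]
  have hF : (G.neighborFinset (x n)).filter (fun y => Fw n x y) = {b} := by
    rw [hall]
    ext y
    rw [mem_filter, mem_insert, mem_singleton, mem_singleton]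
    unfold Fw
    constructor
    · rintro ⟨rfl | rfl, h⟩
      · rfl
      · omega
    · rintro rfl
      exact ⟨Or.inl rfl, hb1⟩
  have hN : (G.neighborFinset (x n)).filter (fun y => ¬ Fw n x y) = {b'} := by
    rw [hall]
    ext y
    rw [mem_filter, mem_insert, mem_singleton]
    unfold Fw
    constructor
    · rintro ⟨rfl | rfl, h⟩
      · omega
      · rfl
    · rintro rfl
      exact ⟨Or.inr rfl, by omega⟩
  have hi : ((out G x n (x n) : ℕ) : ℝ) = (crossing x n (x n) b : ℝ) := by
    unfold out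
    rw [← add_sum_erase _ _ hb', hb'eq, sum_singleton]
    have h1 : (crossing x n (x n) b').toNat = 0 := by omega
    rw [h1, add_zero]
    have h2 : (((crossing x n (x n) b).toNat : ℤ) : ℝ) = (crossing x n (x n) b : ℝ) := by
      rw [Int.toNat_of_nonneg (by omega)]
    rw [← h2]; norm_cast
  have hcb : (0 : ℝ) < (crossing x n (x n) b : ℝ) := by
    have : 0 < crossing x n (x n) b := by omega
    exact_mod_cast this
  refine exp_le_forward G ?_ ?_
  · rw [hF, sum_singleton]; exact weight_pos _ _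
  · rw [hF, hN, sum_singleton, sum_singleton]
    show weight γ (crossing x n (x n) b') ≤
      ((out G x n (x n) : ℕ) : ℝ) ^ (-(2 * γ)) * weight γ (crossing x n (x n) b)
    rw [hi]
    unfold weight
    rw [if_neg (by omega), if_neg (by omega), if_pos (by omega), ← Real.rpow_add hcb]
    have h3 : (crossing x n (x n) b : ℝ) ≤ -(crossing x n (x n) b' : ℝ) := by
      have : crossing x n (x n) b ≤ -crossing x n (x n) b' := by omega
      exact_mod_cast this
    calc (-(crossing x n (x n) b' : ℝ)) ^ (-γ) ≤ (crossing x n (x n) b : ℝ) ^ (-γ) :=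
          Real.rpow_le_rpow_of_nonpos hcb h3 (by linarith)
      _ = _ := by congr 1; ring

/-- The tails of `κ`. -/
noncomputable def tl (κ : ℕ → ℝ) (i : ℕ) : ℝ := ∑' j, κ (i + j)

theorem tl_succ {κ : ℕ → ℝ} (hκ : Summable κ) (i : ℕ) : tl κ i = κ i + tl κ (i + 1) := by
  unfold tl
  have h1 : Summable fun j => κ (i + j) := by
    have := (summable_nat_add_iff i).2 hκ
    simpa [add_comm] using this
  rw [h1.tsum_eq_zero_add, add_zero]
  congr 1
  refine tsum_congr fun j => ?_
  congr 1
  ring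

theorem tl_nonneg {κ : ℕ → ℝ} (h0 : ∀ i, 0 ≤ κ i) (i : ℕ) : 0 ≤ tl κ i := tsum_nonneg fun _ => h0 _

theorem tl_le {κ : ℕ → ℝ} (hκ : Summable κ) (h0 : ∀ i, 0 ≤ κ i) (i : ℕ) : tl κ i ≤ tl κ 0 := by
  induction i with
  | zero => exact le_rfl
  | succ i ih =>
    have := tl_succ hκ i
    have := h0 i
    linarith

/-- The lower bound. -/
noncomputable def Ph (κ : ℕ → ℝ) (A : Finset V) (n : ℕ) (x : ℕ → V) : ℝ :=
  Real.exp (-∑ a ∈ A, tl κ (max 1 (out G x n a)))

theorem Ph_le_one {κ : ℕ → ℝ} (h0 : ∀ i, 0 ≤ κ i) (A : Finset V) (n : ℕ) (x : ℕ → V) :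
    Ph G κ A n x ≤ 1 := by
  unfold Ph
  rw [Real.exp_le_one_iff, neg_nonpos]
  exact sum_nonneg fun _ _ => tl_nonneg h0 _

theorem le_Ph {κ : ℕ → ℝ} (hκ : Summable κ) (h0 : ∀ i, 0 ≤ κ i) (A : Finset V) (n : ℕ)
    (x : ℕ → V) : Real.exp (-(#A * tl κ 0)) ≤ Ph G κ A n x := by
  unfold Ph
  rw [Real.exp_le_exp, neg_le_neg_iff, ← nsmul_eq_mul]
  exact sum_le_card_nsmul _ _ _ fun _ _ => tl_le hκ h0 _

/-- The invariant. -/
def Inv (A : Finset V) (n : ℕ) (x : ℕ → V) : Prop :=
  IsP G x n ∧ x n ∈ A ∧ 1 ≤ out G x n (x n) ∧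
    ∀ a ∈ A, ∀ b, G.Adj a b → 1 ≤ crossing x n a b → b ∈ A

theorem Inv.upd {A : Finset V} {n : ℕ} {x : ℕ → V} (h : Inv G A n x) {y : V}
    (hy : G.Adj (x n) y) (hf : Fw n x y) : Inv G A (n + 1) (upd x n y) := by
  classical
  obtain ⟨h1, h2, h3, h4⟩ := h
  have hyA : y ∈ A := h4 _ h2 y hy hf
  refine ⟨h1.upd hy, ?_, ?_, ?_⟩
  · rw [upd_succ]; exact hyA
  · rw [upd_succ]; exact out_after G h1 hy hf
  · intro a ha b hab hc
    by_cases e1 : x n = a ∧ y = b
    · rw [← e1.2]; exact hyA
    by_cases e2 : x n = b ∧ y = a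
    · rw [← e2.1]; exact h2
    rw [crossing_upd_other e1 e2] at hc
    exact h4 a ha b hab hc

theorem Ph_upd {κ : ℕ → ℝ} (hκ : Summable κ) {A : Finset V} {n : ℕ} {x : ℕ → V}
    (h : Inv G A n x) {y : V} (hy : G.Adj (x n) y) (hf : Fw n x y) :
    Ph G κ A (n + 1) (upd x n y) = Ph G κ A n x * Real.exp (κ (out G x n (x n))) := by
  classical
  unfold Ph
  rw [← Real.exp_add]
  congr 1
  have hA := h.2.1
  rw [← add_sum_erase _ _ hA, ← add_sum_erase A (fun a => tl κ (max 1 (out G x n a))) hA]
  have h1 : ∑ a ∈ A.erase (x n), tl κ (max 1 (out G (upd x n y) (n + 1) a)) =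
      ∑ a ∈ A.erase (x n), tl κ (max 1 (out G x n a)) :=
    sum_congr rfl fun a ha => by rw [out_upd_other G hy hf (ne_of_mem_erase ha)]
  rw [h1, out_upd_self G hy hf, max_eq_right (by omega), max_eq_right h.2.2.1,
    tl_succ hκ (out G x n (x n))]
  ring

variable {G}
variable [Countable V] [mV : MeasurableSpace V] [DiscreteMeasurableSpace V]
variable {γ : ℝ} {v : V} {μ : Measure (ℕ → V)}

/-- **The probability that all steps are forward is bounded from below.** -/
theorem Can.forward (h : Can G γ v μ) {A : Finset V} {κ : ℕ → ℝ} (hκ : Summable κ)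
    (h0 : ∀ i, 0 ≤ κ i) (hgood : Good G γ A κ) {n : ℕ} {x : ℕ → V} (hx : Inv G A n x) :
    Real.exp (-(#A * tl κ 0)) * μ.real (cyl x n) ≤
      μ.real (Ev (fun k w y => Fw k w y) n ∩ cyl x n) := by
  classical
  have := h.prob
  refine (mul_le_mul_of_nonneg_right (le_Ph G hκ h0 A n x) measureReal_nonneg).trans ?_
  refine h.stay loc_Fw (Φ := Ph G κ A) (I := Inv G A) (Ph_le_one G h0 A) ?_
    (fun n x y hI hy hf => hI.upd G hy hf) n x hx
  intro n x hI
  calc Ph G κ A n x = Real.exp (-κ (out G x n (x n))) *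
        (Ph G κ A n x * Real.exp (κ (out G x n (x n)))) := by
        rw [mul_comm (Ph G κ A n x), ← mul_assoc, ← Real.exp_add, neg_add_cancel, Real.exp_zero,
          one_mul]
    _ ≤ (∑ y ∈ (G.neighborFinset (x n)).filter (fun y => Fw n x y), stepProb G γ x n y) *
        (Ph G κ A n x * Real.exp (κ (out G x n (x n)))) := by
        refine mul_le_mul_of_nonneg_right (hgood n x hI.1 hI.2.1 hI.2.2.1) ?_
        unfold Ph
        positivity
    _ = _ := by
        rw [sum_mul]
        refine sum_congr rfl fun y hy => ?_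
        rw [Ph_upd G hκ hI (by simpa using (mem_filter.1 hy).1) (mem_filter.1 hy).2]

end Pool.Agent.P8H96.ER
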