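import Pool.Agent.P8H96.ER.Reach

/-!
For `γ > 1` and all steps forward, two edges with the same origin are not both crossed infinitely
often. The proof uses a complex martingale.
-/

set_option autoImplicit false
set_option linter.unusedSectionVars false

namespace Pool.Agent.P8H96.ER

open MeasureTheory Finset Filter Topology
open scoped ENNReal
open Pool.Agent.Results.MP_856411_pr.NotTrapped

/-! ### The products -/

/-- The factor `1 - i θ j ^ (- γ)`. -/
noncomputable def fac (γ θ : ℝ) (j : ℕ) : ℂ := 1 + (((-(θ * (j : ℝ) ^ (-γ)) : ℝ) : ℂ) * Complex.I)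

/-- The partial products. -/
noncomputable def cA (γ θ : ℝ) (m : ℕ) : ℂ := ∏ j ∈ range m, fac γ θ j

theorem fac_re (γ θ : ℝ) (j : ℕ) : (fac γ θ j).re = 1 := by
  simp [fac]

theorem fac_im (γ θ : ℝ) (j : ℕ) : (fac γ θ j).im = -(θ * (j : ℝ) ^ (-γ)) := by
  simp only [fac, Complex.add_im, Complex.one_im, Complex.mul_im, Complex.ofReal_re,
    Complex.I_im, Complex.ofReal_im, Complex.I_re]
  ring

theorem one_le_norm_fac (γ θ : ℝ) (j : ℕ) : 1 ≤ ‖fac γ θ j‖ := by
  have := Complex.abs_re_le_norm (fac γ θ j)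
  rwa [fac_re, abs_one] at this

theorem le_norm_fac {γ θ : ℝ} (hθ : 0 ≤ θ) (j : ℕ) : θ * (j : ℝ) ^ (-γ) ≤ ‖fac γ θ j‖ := by
  have := Complex.abs_im_le_norm (fac γ θ j)
  rw [fac_im, abs_neg, abs_of_nonneg (by positivity)] at this
  exact this

theorem cA_succ (γ θ : ℝ) (m : ℕ) : cA γ θ (m + 1) = cA γ θ m * fac γ θ m := by
  unfold cA
  rw [prod_range_succ]

theorem norm_cA_le_succ (γ θ : ℝ) (m : ℕ) : ‖cA γ θ m‖ ≤ ‖cA γ θ (m + 1)‖ := by
  rw [cA_succ, norm_mul]
  exact le_mul_of_one_le_right (norm_nonneg _) (one_le_norm_fac γ θ m)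

theorem norm_cA_mono (γ θ : ℝ) : Monotone fun m => ‖cA γ θ m‖ :=
  monotone_nat_of_le_succ (norm_cA_le_succ γ θ)

/-- The infinite product. -/
noncomputable def cL (γ θ : ℝ) : ℂ := ∏' j, fac γ θ j

theorem tendsto_cA {γ : ℝ} (hγ : 1 < γ) (θ : ℝ) : Tendsto (cA γ θ) atTop (𝓝 (cL γ θ)) := by
  refine Multipliable.tendsto_prod_tprod_nat ?_
  refine multipliable_one_add_of_summable (f := fun j : ℕ =>
    ((-(θ * (j : ℝ) ^ (-γ)) : ℝ) : ℂ) * Complex.I) ?_
  have h1 : Summable fun j : ℕ => |θ| * (j : ℝ) ^ (-γ) :=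
    (Real.summable_nat_rpow.2 (by linarith)).mul_left _
  refine h1.congr fun j => ?_
  rw [norm_mul, Complex.norm_I, mul_one, Complex.norm_real, Real.norm_eq_abs, abs_neg, abs_mul,
    abs_of_nonneg (show (0 : ℝ) ≤ (j : ℝ) ^ (-γ) by positivity)]

theorem norm_cA_le {γ : ℝ} (hγ : 1 < γ) (θ : ℝ) (m : ℕ) : ‖cA γ θ m‖ ≤ ‖cL γ θ‖ :=
  (norm_cA_mono γ θ).ge_of_tendsto ((tendsto_cA hγ θ).norm) m

theorem one_le_norm_cL {γ : ℝ} (hγ : 1 < γ) (θ : ℝ) : 1 ≤ ‖cL γ θ‖ := by
  have := norm_cA_le hγ θ 0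
  simpa [cA] using this

theorem norm_cA_small {γ θ : ℝ} (hγ : 1 < γ) (hθ : 0 < θ) {m K : ℕ} (hK : 1 ≤ K) (hm : m ≤ K) :
    ‖cA γ θ m‖ ≤ ‖cL γ θ‖ * ((K : ℝ) ^ γ / θ) := by
  have hK' : (0 : ℝ) < K := by exact_mod_cast hK
  have h1 := norm_cA_le hγ θ (K + 1)
  rw [cA_succ, norm_mul] at h1
  have h2 := norm_cA_mono γ θ hm
  have h3 := le_norm_fac (γ := γ) hθ.le K
  have h4 : ‖cA γ θ m‖ * (θ * (K : ℝ) ^ (-γ)) ≤ ‖cL γ θ‖ :=
    (mul_le_mul h2 h3 (by positivity) (norm_nonneg _)).trans h1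
  have h5 : (0 : ℝ) < (K : ℝ) ^ γ := Real.rpow_pos_of_pos hK' _
  rw [Real.rpow_neg hK'.le] at h4
  calc ‖cA γ θ m‖ = ‖cA γ θ m‖ * (θ * ((K : ℝ) ^ γ)⁻¹) * ((K : ℝ) ^ γ / θ) := by
        field_simp
    _ ≤ _ := mul_le_mul_of_nonneg_right h4 (by positivity)

/-! ### The martingale -/

section

variable {V : Type*}

/-- The martingale. -/
noncomputable def Mf (γ θ : ℝ) (a b b' : V) (n : ℕ) (x : ℕ → V) : ℂ :=
  cA γ θ (crossing x n a b).toNat * (starRingEnd ℂ) (cA γ θ (crossing x n a b').toNat) /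
    ((‖cL γ θ‖ ^ 2 : ℝ) : ℂ)

theorem norm_Mf (γ θ : ℝ) (a b b' : V) (n : ℕ) (x : ℕ → V) : ‖Mf γ θ a b b' n x‖ =
    ‖cA γ θ (crossing x n a b).toNat‖ * ‖cA γ θ (crossing x n a b').toNat‖ / ‖cL γ θ‖ ^ 2 := by
  unfold Mf
  rw [norm_div, norm_mul, Complex.norm_conj, Complex.norm_real, Real.norm_eq_abs,
    abs_of_nonneg (by positivity)]

theorem norm_Mf_le_one {γ : ℝ} (hγ : 1 < γ) (θ : ℝ) (a b b' : V) (n : ℕ) (x : ℕ → V) :
    ‖Mf γ θ a b b' n x‖ ≤ 1 := by
  have h0 := one_le_norm_cL hγ θ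
  rw [norm_Mf, div_le_one (by positivity), sq]
  exact mul_le_mul (norm_cA_le hγ θ _) (norm_cA_le hγ θ _) (norm_nonneg _) (norm_nonneg _)

theorem norm_Mf_small {γ θ : ℝ} (hγ : 1 < γ) (hθ : 0 < θ) {a b b' : V} {n : ℕ} {x : ℕ → V}
    {K : ℕ} (hK : 1 ≤ K) (h : crossing x n a b ≤ K ∨ crossing x n a b' ≤ K) :
    ‖Mf γ θ a b b' n x‖ ≤ (K : ℝ) ^ γ / θ := by
  have h0 := one_le_norm_cL hγ θ
  rw [norm_Mf, div_le_iff₀ (by positivity)]
  rcases h with h | h
  · have h1 := norm_cA_small hγ hθ hK (m := (crossing x n a b).toNat) (by omega)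
    calc ‖cA γ θ (crossing x n a b).toNat‖ * ‖cA γ θ (crossing x n a b').toNat‖
        ≤ (‖cL γ θ‖ * ((K : ℝ) ^ γ / θ)) * ‖cL γ θ‖ :=
          mul_le_mul h1 (norm_cA_le hγ θ _) (norm_nonneg _) (by positivity)
      _ = _ := by ring
  · have h1 := norm_cA_small hγ hθ hK (m := (crossing x n a b').toNat) (by omega)
    calc ‖cA γ θ (crossing x n a b).toNat‖ * ‖cA γ θ (crossing x n a b').toNat‖
        ≤ ‖cL γ θ‖ * (‖cL γ θ‖ * ((K : ℝ) ^ γ / θ)) :=
          mul_le_mul (norm_cA_le hγ θ _) h1 (norm_nonneg _) (by positivity)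
      _ = _ := by ring

theorem Mf_congr {γ θ : ℝ} {a b b' : V} {n : ℕ} {x w : ℕ → V} (h : w ∈ cyl x n) :
    Mf γ θ a b b' n w = Mf γ θ a b b' n x := by
  unfold Mf
  rw [crossing_congr h, crossing_congr h]

theorem weight_mul {γ θ : ℝ} {z : ℤ} (hz : 1 ≤ z) :
    (weight γ z : ℂ) * (fac γ θ z.toNat - 1) = -((θ : ℂ) * Complex.I) := by
  have h1 : ((z.toNat : ℕ) : ℝ) = (z : ℝ) := by
    have h2 : (((z.toNat : ℤ)) : ℝ) = (z : ℝ) := by rw [Int.toNat_of_nonneg (by omega)]
    rw [← h2]; norm_cast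
  have h3 : (0 : ℝ) < z := by exact_mod_cast (show 0 < z by omega)
  unfold fac weight
  rw [if_pos (by omega), h1, add_sub_cancel_left, Real.rpow_neg h3.le]
  have h4 : (0 : ℝ) < (z : ℝ) ^ γ := Real.rpow_pos_of_pos h3 _
  have h5 : (((z : ℝ) ^ γ : ℝ) : ℂ) ≠ 0 := by exact_mod_cast h4.ne'
  push_cast
  field_simp

variable (G : SimpleGraph V) [G.LocallyFinite]

open Classical in
/-- The martingale property. -/
theorem Mf_step {γ θ : ℝ} {a b b' : V} (hab : G.Adj a b) (hab' : G.Adj a b') (hne : b ≠ b')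
    {n : ℕ} {x : ℕ → V} (hc : 1 ≤ crossing x n a b) (hc' : 1 ≤ crossing x n a b') :
    ∑ y ∈ (G.neighborFinset (x n)).filter (fun y => Fw n x y),
      (stepProb G γ x n y : ℂ) * (Mf γ θ a b b' (n + 1) (upd x n y) - Mf γ θ a b b' n x) = 0 := by
  have hsw : crossing x n b a = -crossing x n a b := crossing_swap x n a b
  have hsw' : crossing x n b' a = -crossing x n a b' := crossing_swap x n a b'
  by_cases ha : x n = a
  · have hb : b ∈ (G.neighborFinset (x n)).filter (fun y => Fw n x y) := by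
      rw [mem_filter, SimpleGraph.mem_neighborFinset, ha]
      exact ⟨hab, by unfold Fw; rw [ha]; exact hc⟩
    have hb' : b' ∈ (G.neighborFinset (x n)).filter (fun y => Fw n x y) := by
      rw [mem_filter, SimpleGraph.mem_neighborFinset, ha]
      exact ⟨hab', by unfold Fw; rw [ha]; exact hc'⟩
    rw [sum_eq_add b b' hne]
    · have h1 : Mf γ θ a b b' (n + 1) (upd x n b) =
          Mf γ θ a b b' n x * fac γ θ (crossing x n a b).toNat := by
        unfold Mf
        have e1 : crossing (upd x n b) (n + 1) a b = crossing x n a b + 1 := by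
          have := crossing_upd_self G (x := x) (n := n) (y := b) (by rw [ha]; exact hab)
          rwa [ha] at this
        have e2 : crossing (upd x n b) (n + 1) a b' = crossing x n a b' :=
          crossing_upd_other (fun h => hne h.2) (fun h => hab'.ne (ha.symm.trans h.1))
        rw [e1, e2, show (crossing x n a b + 1).toNat = (crossing x n a b).toNat + 1 by omega,
          cA_succ]
        ring
      have h2 : Mf γ θ a b b' (n + 1) (upd x n b') =
          Mf γ θ a b b' n x * (starRingEnd ℂ) (fac γ θ (crossing x n a b').toNat) := by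
        unfold Mf
        have e1 : crossing (upd x n b') (n + 1) a b' = crossing x n a b' + 1 := by
          have := crossing_upd_self G (x := x) (n := n) (y := b') (by rw [ha]; exact hab')
          rwa [ha] at this
        have e2 : crossing (upd x n b') (n + 1) a b = crossing x n a b :=
          crossing_upd_other (fun h => hne h.2.symm) (fun h => hab.ne (ha.symm.trans h.1))
        rw [e1, e2, show (crossing x n a b' + 1).toNat = (crossing x n a b').toNat + 1 by omega,
          cA_succ, map_mul]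
        ring
      rw [h1, h2]
      unfold stepProb
      rw [if_pos (by rw [ha]; exact hab), if_pos (by rw [ha]; exact hab'), ha]
      have h3 := weight_mul (γ := γ) (θ := θ) hc
      have h4 := congrArg (starRingEnd ℂ) (weight_mul (γ := γ) (θ := θ) hc')
      simp only [map_mul, map_sub, map_one, map_neg, Complex.conj_ofReal, Complex.conj_I] at h4
      push_cast
      linear_combination (Mf γ θ a b b' n x /
        (∑ z ∈ G.neighborFinset a, (weight γ (crossing x n a z) : ℂ))) * (h3 + h4)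
    · rintro y hy ⟨hy1, hy2⟩
      have e1 : crossing (upd x n y) (n + 1) a b = crossing x n a b :=
        crossing_upd_other (fun h => hy1 h.2) (fun h => hab.ne (ha.symm.trans h.1))
      have e2 : crossing (upd x n y) (n + 1) a b' = crossing x n a b' :=
        crossing_upd_other (fun h => hy2 h.2) (fun h => hab'.ne (ha.symm.trans h.1))
      unfold Mf
      rw [e1, e2, sub_self, mul_zero]
    · exact fun h => absurd hb h
    · exact fun h => absurd hb' h
  · refine sum_eq_zero fun y hy => ?_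
    have hF : 1 ≤ crossing x n (x n) y := (mem_filter.1 hy).2
    have e1 : crossing (upd x n y) (n + 1) a b = crossing x n a b := by
      refine crossing_upd_other (fun h => ha h.1) ?_
      rintro ⟨h1, h2⟩
      rw [h1, h2, hsw] at hF
      omega
    have e2 : crossing (upd x n y) (n + 1) a b' = crossing x n a b' := by
      refine crossing_upd_other (fun h => ha h.1) ?_
      rintro ⟨h1, h2⟩
      rw [h1, h2, hsw'] at hF
      omega
    unfold Mf
    rw [e1, e2, sub_self, mul_zero]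

/-- A positive crossing number does not decrease at a forward step. -/
theorem crossing_mono {x : ℕ → V} {n : ℕ} {a b : V} (hf : Fw n x (x (n + 1)))
    (hc : 1 ≤ crossing x n a b) : crossing x n a b ≤ crossing x (n + 1) a b := by
  classical
  rw [crossing_succ]
  have h2 : ¬ (x n = b ∧ x (n + 1) = a) := by
    rintro ⟨h1, h2⟩
    unfold Fw at hf
    rw [h1, h2, crossing_swap x n a b] at hf
    omega
  rw [if_neg h2]
  split_ifs <;> omega

open Classical in
/-- The martingale stopped at the first step that is not forward. -/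
noncomputable def Zs (γ θ : ℝ) (a b b' : V) : ℕ → ℕ → (ℕ → V) → ℂ
  | 0, n, w => Mf γ θ a b b' n w
  | N + 1, n, w => if Fw n w (w (n + 1)) then Zs γ θ a b b' N (n + 1) w else Mf γ θ a b b' n w

theorem Zs_pos {γ θ : ℝ} {a b b' : V} {N n : ℕ} {w : ℕ → V} (h : Fw n w (w (n + 1))) :
    Zs γ θ a b b' (N + 1) n w = Zs γ θ a b b' N (n + 1) w := by
  rw [Zs, if_pos h]

theorem Zs_neg {γ θ : ℝ} {a b b' : V} {N n : ℕ} {w : ℕ → V} (h : ¬ Fw n w (w (n + 1))) :
    Zs γ θ a b b' (N + 1) n w = Mf γ θ a b b' n w := by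
  rw [Zs, if_neg h]

/-- The value of the stopped martingale. -/
theorem Zs_eq {γ θ : ℝ} {a b b' : V} (N n : ℕ) (w : ℕ → V) :
    ∃ k, n ≤ k ∧ k ≤ n + N ∧ Zs γ θ a b b' N n w = Mf γ θ a b b' k w ∧
      (∀ j, n ≤ j → j < k → Fw j w (w (j + 1))) := by
  induction N generalizing n with
  | zero => exact ⟨n, le_rfl, le_rfl, rfl, fun j h1 h2 => by omega⟩
  | succ N ih =>
    by_cases h : Fw n w (w (n + 1))
    · obtain ⟨k, h1, h2, h3, h4⟩ := ih (n + 1)
      refine ⟨k, by omega, by omega, ?_, fun j hj1 hj2 => ?_⟩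
      · rw [← h3, Zs_pos h]
      · rcases Nat.lt_or_ge n j with h5 | h5
        · exact h4 j (by omega) hj2
        · have : j = n := by omega
          subst this
          exact h
    · refine ⟨n, le_rfl, by omega, ?_, fun j h1 h2 => by omega⟩
      exact Zs_neg h

theorem Zs_forward {γ θ : ℝ} {a b b' : V} {N n : ℕ} {w : ℕ → V}
    (h : ∀ j, n ≤ j → j < n + N → Fw j w (w (j + 1))) :
    Zs γ θ a b b' N n w = Mf γ θ a b b' (n + N) w := by
  induction N generalizing n with
  | zero => rfl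
  | succ N ih =>
    rw [Zs_pos (h n le_rfl (by omega)), ih (fun j h1 h2 => h j (by omega) (by omega))]
    congr 1
    omega

theorem Zs_congr {γ θ : ℝ} {a b b' : V} {N n : ℕ} {x w : ℕ → V} (h : w ∈ cyl x (n + N)) :
    Zs γ θ a b b' N n w = Zs γ θ a b b' N n x := by
  induction N generalizing n with
  | zero => exact Mf_congr h
  | succ N ih =>
    have h1 : w ∈ cyl x n := fun i hi => h i (by omega)
    have h2 : w (n + 1) = x (n + 1) := h (n + 1) (by omega)
    have h3 : Fw n w (w (n + 1)) ↔ Fw n x (x (n + 1)) := by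
      rw [h2]
      exact loc_Fw n x w _ h1
    by_cases hF : Fw n w (w (n + 1))
    · rw [Zs_pos hF, Zs_pos (h3.1 hF), ih (fun i hi => h i (by omega))]
    · rw [Zs_neg hF, Zs_neg (fun h => hF (h3.2 h)), Mf_congr h1]

end

/-! ### Two edges with the same origin -/

section

variable {V : Type*} {G : SimpleGraph V} [G.LocallyFinite]

theorem crossing_mono_Ev {w : ℕ → V} {n : ℕ} {a b : V} (hw : w ∈ Ev (fun k w y => Fw k w y) n)
    {k : ℕ} (hk : n ≤ k) (hc : 1 ≤ crossing w k a b) {k' : ℕ} (hk' : k ≤ k') :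
    crossing w k a b ≤ crossing w k' a b := by
  induction k', hk' using Nat.le_induction with
  | base => exact le_rfl
  | succ m hm ih => exact ih.trans (crossing_mono (hw m (by omega)) (by omega))

theorem crossing_step {w : ℕ → V} {k : ℕ} {a b : V} (hne : a ≠ b) (h : w k = a ∧ w (k + 1) = b) :
    crossing w (k + 1) a b = crossing w k a b + 1 := by
  classical
  rw [crossing_succ, if_pos h, if_neg (fun h' => hne (h.1.symm.trans h'.1))]
  ring

theorem tendsto_crossing {w : ℕ → V} {n : ℕ} {a b : V} (hne : a ≠ b)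
    (hw : w ∈ Ev (fun k w y => Fw k w y) n) (hc : 1 ≤ crossing w n a b)
    (hf : ∃ᶠ k in atTop, w k = a ∧ w (k + 1) = b) :
    Tendsto (fun k => (crossing w k a b).toNat) atTop atTop := by
  have h1 : ∀ M : ℕ, ∃ k, n ≤ k ∧ 1 ≤ crossing w k a b ∧ (M : ℤ) ≤ crossing w k a b := by
    intro M
    induction M with
    | zero => exact ⟨n, le_rfl, hc, by omega⟩
    | succ M ih =>
      obtain ⟨k, hk1, hk2, hk3⟩ := ih
      obtain ⟨k', hk'1, hk'2⟩ := frequently_atTop.1 hf k
      have h2 := crossing_mono_Ev hw hk1 hk2 hk'1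
      have h3 := crossing_step hne hk'2
      exact ⟨k' + 1, by omega, by omega, by push_cast; omega⟩
  rw [tendsto_atTop]
  intro M
  obtain ⟨k, hk1, hk2, hk3⟩ := h1 M
  filter_upwards [eventually_ge_atTop k] with k' hk'
  have h2 := crossing_mono_Ev hw hk1 hk2 hk'
  omega

theorem crossing_le_of_not_io {w : ℕ → V} {a b : V} {K : ℕ}
    (h : ∀ k, K ≤ k → ¬ (w k = a ∧ w (k + 1) = b)) (k : ℕ) : crossing w k a b ≤ K := by
  classical
  induction k with
  | zero => simp [crossing]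
  | succ k ih =>
    rcases Nat.lt_or_ge k K with h1 | h1
    · have := (abs_le.1 (abs_crossing_le w (k + 1) a b)).2
      have h2 : ((k + 1 : ℕ) : ℤ) ≤ K := by exact_mod_cast h1
      omega
    · rw [crossing_succ, if_neg (h k h1)]
      split_ifs <;> omega

/-- The paths along which all steps are forward from time `n` on and the edges from `a` to `b` and
from `a` to `b'` are crossed infinitely often. -/
def Both (n : ℕ) (a b b' : V) : Set (ℕ → V) :=
  {w | w ∈ Ev (fun k w y => Fw k w y) n ∧ (∃ᶠ k in atTop, w k = a ∧ w (k + 1) = b) ∧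
    ∃ᶠ k in atTop, w k = a ∧ w (k + 1) = b'}

theorem tendsto_Zs {γ : ℝ} (hγ : 1 < γ) (θ : ℝ) {a b b' : V} (hab : a ≠ b) (hab' : a ≠ b')
    {n : ℕ} {w : ℕ → V} (hw : w ∈ Both n a b b') (hc : 1 ≤ crossing w n a b)
    (hc' : 1 ≤ crossing w n a b') :
    Tendsto (fun N => Zs γ θ a b b' N n w) atTop (𝓝 1) := by
  have h0 := one_le_norm_cL hγ θ
  have h1 : ∀ N, Zs γ θ a b b' N n w = Mf γ θ a b b' (N + n) w := by
    intro N
    rw [Zs_forward fun j h1 _ => hw.1 j h1, add_comm]
  simp_rw [h1]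
  rw [tendsto_add_atTop_iff_nat (f := fun k => Mf γ θ a b b' k w) n]
  unfold Mf
  have h2 := (tendsto_cA hγ θ).comp (tendsto_crossing hab hw.1 hc hw.2.1)
  have h3 := (Complex.continuous_conj.tendsto _).comp
    ((tendsto_cA hγ θ).comp (tendsto_crossing hab' hw.1 hc' hw.2.2))
  have h4 := (h2.mul h3).div_const ((‖cL γ θ‖ ^ 2 : ℝ) : ℂ)
  have h5 : cL γ θ * (starRingEnd ℂ) (cL γ θ) / ((‖cL γ θ‖ ^ 2 : ℝ) : ℂ) = 1 := by
    rw [Complex.mul_conj, Complex.normSq_eq_norm_sq]
    have : ((‖cL γ θ‖ ^ 2 : ℝ) : ℂ) ≠ 0 := by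
      have : ‖cL γ θ‖ ^ 2 ≠ 0 := by positivity
      exact_mod_cast this
    exact div_self this
  rw [h5] at h4
  exact h4

theorem Zs_small {γ : ℝ} (hγ : 1 < γ) {a b b' : V} {n : ℕ} {w : ℕ → V}
    (hw : w ∉ Both n a b b') :
    ∃ K : ℕ, ∀ θ : ℝ, 0 < θ → ∀ N, ‖Zs γ θ a b b' N n w‖ ≤ (K : ℝ) ^ γ / θ := by
  by_cases h1 : w ∈ Ev (fun k w y => Fw k w y) n
  · by_cases h2 : ∃ᶠ k in atTop, w k = a ∧ w (k + 1) = b
    · have h3 : ¬ ∃ᶠ k in atTop, w k = a ∧ w (k + 1) = b' := fun h3 => hw ⟨h1, h2, h3⟩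
      rw [not_frequently, eventually_atTop] at h3
      obtain ⟨K, hK⟩ := h3
      refine ⟨K + 1, fun θ hθ N => ?_⟩
      obtain ⟨k, -, -, hk, -⟩ := Zs_eq (γ := γ) (θ := θ) (a := a) (b := b) (b' := b') N n w
      rw [hk]
      have := crossing_le_of_not_io hK k
      exact norm_Mf_small hγ hθ (by omega) (Or.inr (by push_cast; omega))
    · rw [not_frequently, eventually_atTop] at h2
      obtain ⟨K, hK⟩ := h2
      refine ⟨K + 1, fun θ hθ N => ?_⟩
      obtain ⟨k, -, -, hk, -⟩ := Zs_eq (γ := γ) (θ := θ) (a := a) (b := b) (b' := b') N n w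
      rw [hk]
      have := crossing_le_of_not_io hK k
      exact norm_Mf_small hγ hθ (by omega) (Or.inl (by push_cast; omega))
  · simp only [Ev, Set.mem_ofPred_eq, not_forall] at h1
    obtain ⟨τ, hτ1, hτ2⟩ := h1
    refine ⟨τ + 1, fun θ hθ N => ?_⟩
    obtain ⟨k, hk1, -, hk, hk2⟩ := Zs_eq (γ := γ) (θ := θ) (a := a) (b := b) (b' := b') N n w
    rw [hk]
    have h3 : k ≤ τ := by
      by_contra hcon
      exact hτ2 (hk2 τ hτ1 (by omega))
    have := (abs_le.1 (abs_crossing_le w k a b)).2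
    exact norm_Mf_small hγ hθ (by omega) (Or.inl (by push_cast; omega))

variable [Countable V] [mV : MeasurableSpace V] [DiscreteMeasurableSpace V]
variable {γ : ℝ} {v : V} {μ : Measure (ℕ → V)}

theorem measurable_local {m : ℕ} {f : (ℕ → V) → ℂ} (h : ∀ x w, w ∈ cyl x m → f w = f x) :
    Measurable f := by
  intro s _
  refine measurableSet_local m fun x w hw hx => ?_
  show f w ∈ s
  rw [h x w hw]
  exact hx

theorem measurable_Zs (θ : ℝ) (a b b' : V) (N n : ℕ) :
    Measurable (Zs γ θ a b b' N n) :=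
  measurable_local (m := n + N) fun _ _ h => Zs_congr h

theorem norm_Zs_le_one (hγ : 1 < γ) (θ : ℝ) (a b b' : V) (N n : ℕ) (w : ℕ → V) :
    ‖Zs γ θ a b b' N n w‖ ≤ 1 := by
  obtain ⟨k, -, -, hk, -⟩ := Zs_eq (γ := γ) (θ := θ) (a := a) (b := b) (b' := b') N n w
  rw [hk]
  exact norm_Mf_le_one hγ θ a b b' k w

theorem integrable_Zs [IsFiniteMeasure μ] (hγ : 1 < γ) (θ : ℝ) (a b b' : V) (N n : ℕ) :
    Integrable (Zs γ θ a b b' N n) μ :=
  Integrable.of_bound (measurable_Zs θ a b b' N n).aestronglyMeasurable 1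
    (ae_of_all _ fun w => norm_Zs_le_one hγ θ a b b' N n w)

theorem Can.integral_Zs (h : Can G γ v μ) (hγ : 1 < γ) (θ : ℝ) {a b b' : V} (hab : G.Adj a b)
    (hab' : G.Adj a b') (hne : b ≠ b') (N : ℕ) : ∀ (n : ℕ) (x : ℕ → V),
    1 ≤ crossing x n a b → 1 ≤ crossing x n a b' →
    ∫ w in cyl x n, Zs γ θ a b b' N n w ∂μ = (μ.real (cyl x n) : ℂ) * Mf γ θ a b b' n x := by
  classical
  have hp := h.prob
  induction N with
  | zero =>
    intro n x _ _
    show ∫ w in cyl x n, Mf γ θ a b b' n w ∂μ = _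
    rw [setIntegral_congr_fun (g := fun _ => Mf γ θ a b b' n x) (measurableSet_cyl x n)
      (fun w hw => Mf_congr hw), setIntegral_const, Complex.real_smul]
  | succ N ih =>
    intro n x hc hc'
    rw [h.integral_split x n (integrable_Zs hγ θ a b b' (N + 1) n)]
    have h1 : ∀ y ∈ G.neighborFinset (x n),
        ∫ w in cyl (upd x n y) (n + 1), Zs γ θ a b b' (N + 1) n w ∂μ =
          (μ.real (cyl (upd x n y) (n + 1)) : ℂ) * Mf γ θ a b b' n x +
          (μ.real (cyl x n) : ℂ) * (if Fw n x y then (stepProb G γ x n y : ℂ) *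
            (Mf γ θ a b b' (n + 1) (upd x n y) - Mf γ θ a b b' n x) else 0) := by
      intro y _
      have hcyl : ∀ w ∈ cyl (upd x n y) (n + 1), w ∈ cyl x n ∧ w (n + 1) = y := by
        intro w hw
        rw [cyl_upd] at hw
        exact hw
      by_cases hF : Fw n x y
      · rw [if_pos hF, setIntegral_congr_fun (g := Zs γ θ a b b' N (n + 1))
          (measurableSet_cyl _ _) (fun w hw => ?_)]
        · have e0 : ∀ c, crossing (upd x n y) n a c = crossing x n a c := fun c =>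
            crossing_congr (fun i hi => upd_le hi) a c
          have hF' : Fw n (upd x n y) (upd x n y (n + 1)) := by
            rw [upd_succ]
            exact (loc_Fw n x (upd x n y) y (fun i hi => upd_le hi)).2 hF
          have e1 := crossing_mono (a := a) (b := b) hF' (by rw [e0]; exact hc)
          have e2 := crossing_mono (a := a) (b := b') hF' (by rw [e0]; exact hc')
          rw [e0] at e1 e2
          rw [ih (n + 1) (upd x n y) (by omega) (by omega), h.real_step]
          push_cast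
          ring
        · obtain ⟨hw1, hw2⟩ := hcyl w hw
          refine Zs_pos ?_
          rw [hw2]
          exact (loc_Fw n x w y hw1).2 hF
      · rw [if_neg hF, setIntegral_congr_fun (g := fun _ => Mf γ θ a b b' n x)
          (measurableSet_cyl _ _) (fun w hw => ?_), setIntegral_const, Complex.real_smul,
          mul_zero, add_zero]
        obtain ⟨hw1, hw2⟩ := hcyl w hw
        show Zs γ θ a b b' (N + 1) n w = Mf γ θ a b b' n x
        rw [Zs_neg, Mf_congr hw1]
        rw [hw2]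
        exact fun h' => hF ((loc_Fw n x w y hw1).1 h')
    rw [sum_congr rfl h1, sum_add_distrib, ← sum_mul, ← mul_sum, ← sum_filter,
      Mf_step G hab hab' hne hc hc', mul_zero, add_zero]
    congr 1
    have h2 := h.real_split x n MeasurableSet.univ
    simp only [Set.univ_inter] at h2
    rw [h2]
    push_cast
    rfl

theorem measurableSet_Both (n : ℕ) (a b b' : V) : MeasurableSet (Both n a b b') := by
  have hio : ∀ c : V, MeasurableSet {w : ℕ → V | ∃ᶠ k in atTop, w k = a ∧ w (k + 1) = c} := by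
    intro c
    have : {w : ℕ → V | ∃ᶠ k in atTop, w k = a ∧ w (k + 1) = c} =
        ⋂ m : ℕ, ⋃ k ∈ {k | m ≤ k}, {w : ℕ → V | w k = a ∧ w (k + 1) = c} := by
      ext w
      simp only [Set.mem_ofPred_eq, frequently_atTop, Set.mem_iInter, Set.mem_iUnion]
      constructor
      · intro h m
        obtain ⟨k, h1, h2⟩ := h m
        exact ⟨k, h1, h2⟩
      · intro h m
        obtain ⟨k, h1, h2⟩ := h m
        exact ⟨k, h1, h2⟩
    rw [this]
    refine MeasurableSet.iInter fun m => MeasurableSet.biUnion (Set.to_countable _) fun k _ =>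
      measurableSet_local (k + 1) fun x w hw hx => ?_
    exact ⟨(hw k (by omega)).trans hx.1, (hw (k + 1) le_rfl).trans hx.2⟩
  exact (measurableSet_Ev loc_Fw n).inter ((hio b).inter (hio b'))

/-- **Two edges with the same origin.** -/
theorem Can.both_null (h : Can G γ v μ) (hγ : 1 < γ) {a b b' : V} (hab : G.Adj a b)
    (hab' : G.Adj a b') (hne : b ≠ b') {n : ℕ} {x : ℕ → V} (hc : 1 ≤ crossing x n a b)
    (hc' : 1 ≤ crossing x n a b') : μ (Both n a b b' ∩ cyl x n) = 0 := by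
  have hp := h.prob
  set B : Set (ℕ → V) := Both n a b b' ∩ cyl x n with hB
  have hBm : MeasurableSet B := (measurableSet_Both n a b b').inter (measurableSet_cyl x n)
  have h1 : ∀ θ : ℝ, Tendsto (fun N => ∫ w in B, Zs γ θ a b b' N n w ∂μ) atTop
      (𝓝 (μ.real B : ℂ)) := by
    intro θ
    have h2 : (μ.real B : ℂ) = ∫ _ in B, (1 : ℂ) ∂μ := by
      rw [setIntegral_const, Complex.real_smul, mul_one]
    rw [h2]
    refine tendsto_integral_of_dominated_convergence (fun _ => (1 : ℝ))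
      (fun N => (measurable_Zs θ a b b' N n).aestronglyMeasurable) (integrable_const 1)
      (fun N => ae_of_all _ fun w => norm_Zs_le_one hγ θ a b b' N n w) ?_
    filter_upwards [ae_restrict_mem hBm] with w hw
    refine tendsto_Zs hγ θ hab.ne hab'.ne hw.1 ?_ ?_
    · rw [crossing_congr hw.2]; exact hc
    · rw [crossing_congr hw.2]; exact hc'
  have h2 : ∀ i : ℕ, ∃ N, dist (∫ w in B, Zs γ (i + 1) a b b' N n w ∂μ) (μ.real B : ℂ) <
      1 / ((i : ℝ) + 1) := by
    intro i
    exact ((Metric.tendsto_nhds.1 (h1 (i + 1))) _ (by positivity)).exists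
  choose N hN using h2
  have hinv : Tendsto (fun i : ℕ => 1 / ((i : ℝ) + 1)) atTop (𝓝 0) :=
    tendsto_one_div_add_atTop_nhds_zero_nat
  have hsm : ∀ K : ℕ, Tendsto (fun i : ℕ => (K : ℝ) ^ γ / ((i : ℝ) + 1)) atTop (𝓝 0) := by
    intro K
    have := hinv.const_mul ((K : ℝ) ^ γ)
    rw [mul_zero] at this
    refine this.congr fun i => ?_
    rw [mul_one_div]
  have h3 : Tendsto (fun i : ℕ => ∫ w in B, Zs γ (i + 1) a b b' (N i) n w ∂μ) atTop
      (𝓝 (μ.real B : ℂ)) := by
    rw [tendsto_iff_dist_tendsto_zero]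
    exact squeeze_zero (fun _ => dist_nonneg) (fun i => (hN i).le) hinv
  have h4 : Tendsto (fun i : ℕ => ∫ w in cyl x n \ B, Zs γ (i + 1) a b b' (N i) n w ∂μ) atTop
      (𝓝 0) := by
    have h5 : (0 : ℂ) = ∫ _ in cyl x n \ B, (0 : ℂ) ∂μ := by simp
    rw [h5]
    refine tendsto_integral_of_dominated_convergence (fun _ => (1 : ℝ))
      (fun i => (measurable_Zs _ a b b' (N i) n).aestronglyMeasurable) (integrable_const 1)
      (fun i => ae_of_all _ fun w => norm_Zs_le_one hγ _ a b b' (N i) n w) ?_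
    filter_upwards [ae_restrict_mem ((measurableSet_cyl x n).diff hBm)] with w hw
    have hw' : w ∉ Both n a b b' := fun h' => hw.2 ⟨h', hw.1⟩
    obtain ⟨K, hK⟩ := Zs_small hγ hw'
    exact squeeze_zero_norm (fun i => hK (i + 1) (by positivity) (N i)) (hsm K)
  have h5 : Tendsto (fun i : ℕ => ∫ w in cyl x n, Zs γ (i + 1) a b b' (N i) n w ∂μ) atTop
      (𝓝 0) := by
    have h6 : ∀ i : ℕ, ‖∫ w in cyl x n, Zs γ (i + 1) a b b' (N i) n w ∂μ‖ ≤
        ((n + 1 : ℕ) : ℝ) ^ γ / ((i : ℝ) + 1) := by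
      intro i
      rw [h.integral_Zs hγ _ hab hab' hne (N i) n x hc hc', norm_mul, Complex.norm_real,
        Real.norm_eq_abs, abs_of_nonneg measureReal_nonneg]
      refine (mul_le_of_le_one_left (norm_nonneg _) measureReal_le_one).trans ?_
      have := (abs_le.1 (abs_crossing_le x n a b)).2
      exact norm_Mf_small hγ (by positivity) (by omega) (Or.inl (by push_cast; omega))
    exact squeeze_zero_norm h6 (hsm (n + 1))
  have h6 : ∀ i : ℕ, ∫ w in cyl x n, Zs γ (i + 1) a b b' (N i) n w ∂μ =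
      ∫ w in B, Zs γ (i + 1) a b b' (N i) n w ∂μ +
        ∫ w in cyl x n \ B, Zs γ (i + 1) a b b' (N i) n w ∂μ := by
    intro i
    rw [← setIntegral_union Set.disjoint_sdiff_right ((measurableSet_cyl x n).diff hBm)
      (integrable_Zs hγ _ a b b' (N i) n).integrableOn
      (integrable_Zs hγ _ a b b' (N i) n).integrableOn,
      Set.union_sdiff_cancel Set.inter_subset_right]
  have h7 := (h3.add h4).congr fun i => (h6 i).symm
  have h8 := tendsto_nhds_unique h7 h5
  rw [add_zero] at h8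
  have h9 : μ.real B = 0 := by exact_mod_cast h8
  rwa [measureReal_eq_zero_iff] at h9

theorem ae_not_mem (μ : Measure (ℕ → V)) {B : Set (ℕ → V)} {Q : (ℕ → V) → Prop} {n : ℕ}
    (h : ∀ x, Q x → μ (B ∩ cyl x n) = 0) : ∀ᵐ x ∂μ, Q x → x ∉ B := by
  rw [ae_iff]
  have : {x | ¬ (Q x → x ∉ B)} ⊆ ⋃ y ∈ Set.range (fun x : ℕ → V => hist n x),
      {x | hist n x = y ∧ Q x ∧ x ∈ B} := by
    intro x hx
    simp only [Set.mem_ofPred_eq, Classical.not_imp, not_not] at hx
    exact Set.mem_biUnion ⟨x, rfl⟩ ⟨rfl, hx.1, hx.2⟩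
  refine measure_mono_null this ((measure_biUnion_null_iff (Set.to_countable _)).2 fun y _ => ?_)
  rcases Set.eq_empty_or_nonempty {x : ℕ → V | hist n x = y ∧ Q x ∧ x ∈ B} with h' | ⟨x, hx⟩
  · rw [h']; exact measure_empty
  · refine measure_mono_null ?_ (h x hx.2.1)
    intro w hw
    refine ⟨hw.2.2, ?_⟩
    rw [← hist_eq_iff, hw.1, hx.1]

/-- Almost surely, if all steps are forward from some time on, then no two edges with the same
origin are both crossed infinitely often. -/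
theorem Can.ae_not_both (h : Can G γ v μ) (hγ : 1 < γ) :
    ∀ᵐ x ∂μ, ∀ n, x ∈ Ev (fun k w y => Fw k w y) n → ∀ a b b', b ≠ b' →
      ¬ ((∃ᶠ k in atTop, x k = a ∧ x (k + 1) = b) ∧
        ∃ᶠ k in atTop, x k = a ∧ x (k + 1) = b') := by
  have h1 : ∀ᵐ x ∂μ, ∀ (n : ℕ) (a b b' : V), (1 ≤ crossing x n a b ∧ 1 ≤ crossing x n a b' ∧
      G.Adj a b ∧ G.Adj a b' ∧ b ≠ b') → x ∉ Both n a b b' := by
    simp only [ae_all_iff]
    intro n a b b'
    exact ae_not_mem μ fun x hx => h.both_null hγ hx.2.2.1 hx.2.2.2.1 hx.2.2.2.2 hx.1 hx.2.1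
  filter_upwards [h1, h.ae_isP] with x hx hP n hn a b b' hne hio
  obtain ⟨k1, hk1, hk1a, hk1b⟩ := frequently_atTop.1 hio.1 n
  obtain ⟨k2, hk2, hk2a, hk2b⟩ := frequently_atTop.1 hio.2 n
  have c1 : 1 ≤ crossing x k1 a b := by
    have := hn k1 hk1
    rw [hk1b] at this
    unfold Fw at this
    rwa [hk1a] at this
  have c2 : 1 ≤ crossing x k2 a b' := by
    have := hn k2 hk2
    rw [hk2b] at this
    unfold Fw at this
    rwa [hk2a] at this
  have m1 := crossing_mono_Ev hn hk1 c1 (le_max_left k1 k2)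
  have m2 := crossing_mono_Ev hn hk2 c2 (le_max_right k1 k2)
  have ad1 : G.Adj a b := by
    have := hP (k1 + 1) k1 (by omega)
    rwa [hk1a, hk1b] at this
  have ad2 : G.Adj a b' := by
    have := hP (k2 + 1) k2 (by omega)
    rwa [hk2a, hk2b] at this
  exact hx (max k1 k2) a b b' ⟨by omega, by omega, ad1, ad2, hne⟩
    ⟨fun k hk => hn k (by have := le_max_left k1 k2; omega), hio.1, hio.2⟩

end

end Pool.Agent.P8H96.ER
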